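import Pool.Agent.MP_a32717_an.Aff.Ber
import Pool.Agent.MP_a32717_an.Sym.Top

/-! The inequality for the projection in one direction. -/

open MeasureTheory Set Filter Topology Module
open scoped ENNReal NNReal Pointwise

noncomputable section
namespace Pool.Agent.MP_a32717_an.Aff
open Sym

variable {V : Type*} [NormedAddCommGroup V] [NormedSpace ℝ V] {K : Set (V × ℝ)} {y : V} {t : ℝ}

/-- the height of the lowest point over `y` -/
def bot (K : Set (V × ℝ)) (y : V) : ℝ := -top (-K) (-y)

lemma bot_mem (hK : IsCompact K) (hy : y ∈ Prod.fst '' K) : (y, bot K y) ∈ K := by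
  obtain ⟨q, hq, rfl⟩ := hy
  simpa [bot] using top_mem hK.neg (y := -q.1) ⟨-q, by simpa using hq, rfl⟩

lemma bot_le (hK : IsCompact K) (h : (y, t) ∈ K) : bot K y ≤ t :=
  neg_le.1 (le_top hK.neg (by simpa using h))

lemma bot_convex (hK : IsCompact K) (hc : Convex ℝ K) : ConvexOn ℝ (Prod.fst '' K) (bot K) :=
  ⟨proj_convex hc, fun _ hx _ hy _ _ ha hb hab =>
    bot_le hK (hc (bot_mem hK hx) (bot_mem hK hy) ha hb hab)⟩

lemma fib (hK : IsCompact K) (hc : Convex ℝ K) (hy : y ∈ Prod.fst '' K) :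
    {t | (y, t) ∈ K} = Icc (bot K y) (top K y) := by
  ext t
  refine ⟨fun h => ⟨bot_le hK h, le_top hK h⟩, fun h => ?_⟩
  have h2 : Convex ℝ {t | (y, t) ∈ K} := fun a ha b hb u v hu hv huv => by
    have := hc ha hb hu hv huv
    simpa [← add_smul, huv] using this
  exact h2.ordConnected.out (bot_mem hK hy) (top_mem hK hy) h

variable [FiniteDimensional ℝ V] [MeasurableSpace V] [BorelSpace V] (μ : Measure V)
  [μ.IsAddHaarMeasure] {m : ℕ}

lemma fub (hK : IsCompact K) (hc : Convex ℝ K) {G : V × ℝ → ℝ} (cG : Continuous G) :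
    IntegrableOn (fun y => ∫ t in bot K y..top K y, G (y, t)) (interior (Prod.fst '' K)) μ ∧
    ∫ q in K, G q ∂μ.prod volume =
      ∫ y in interior (Prod.fst '' K), (∫ t in bot K y..top K y, G (y, t)) ∂μ := by
  have mK := hK.measurableSet
  have hi := (integrable_indicator_iff mK).2 (integrableOn_bdd (μ.prod volume) cG hK.isBounded)
  have e : EqOn (fun y => ∫ t, K.indicator G (y, t)) (fun y => ∫ t in bot K y..top K y, G (y, t))
      (interior (Prod.fst '' K)) := fun y hy => by
    have hy' := interior_subset hy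
    have : (fun t => K.indicator G (y, t)) = (Icc (bot K y) (top K y)).indicator fun t => G (y, t) := by
      rw [← fib hK hc hy']; ext t; simp [indicator]
    simp only [this]
    rw [integral_indicator measurableSet_Icc, integral_Icc_eq_integral_Ioc,
      intervalIntegral.integral_of_le (bot_le hK (top_mem hK hy'))]
  refine ⟨hi.integral_prod_left.integrableOn.congr_fun e isOpen_interior.measurableSet, ?_⟩
  rw [← integral_indicator mK, integral_prod _ hi, ← setIntegral_congr_fun
    isOpen_interior.measurableSet e,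
    setIntegral_congr_set (interior_ae_eq_of_null_frontier ((proj_convex hc).addHaar_frontier μ)),
    setIntegral_eq_integral_of_forall_compl_eq_zero fun y hy => ?_]
  have : ∀ t, (y, t) ∉ K := fun t ht => hy ⟨_, ht, rfl⟩
  simp [this]

theorem dir (hm : finrank ℝ V = m) (m0 : m ≠ 0) (hK : IsCompact K) (hc : Convex ℝ K)
    (h0 : 0 ∈ interior K) {φ : V × ℝ → ℝ} (L : V →L[ℝ] ℝ) (a c : ℝ)
    (hφ : ∀ y t, φ (y, t) = a * t + (L y + c)) (φ0 : ∀ q ∈ K, 0 ≤ φ q) {p : ℝ} (hp : 1 ≤ p) :
    2 * (bt m 1 * bt m p) * μ.real (Prod.fst '' K) * ∫ q in K, φ q ^ p ∂μ.prod volume ≤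
      bt m (p + 1) * (μ.prod volume).real K *
        (∫ y in interior (Prod.fst '' K), φ (y, top K y) ^ p ∂μ +
          ∫ y in interior (Prod.fst '' K), φ (y, bot K y) ^ p ∂μ) := by
  have p0 : 0 < p := by linarith
  have cφ : Continuous φ := by
    rw [show φ = fun q => a * q.2 + (L q.1 + c) from funext fun q => hφ q.1 q.2]; fun_prop
  have Hc := proj_convex hc
  have tc := (top_concave hK hc).subset interior_subset Hc.interior
  have bc := (bot_convex hK hc).subset interior_subset Hc.interior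
  have ae := interior_ae_eq_of_null_frontier (Hc.addHaar_frontier μ)
  obtain ⟨j1, j2⟩ := fub μ hK hc ((Real.continuous_rpow_const p0.le).comp cφ)
  obtain ⟨-, j3⟩ := fub μ hK hc (G := fun _ => 1) continuous_const
  have Hf : μ (interior (Prod.fst '' K)) ≠ ∞ := ((measure_mono interior_subset).trans_lt
    (hK.image continuous_fst).measure_lt_top).ne
  have Hn : (interior (Prod.fst '' K)).Nonempty := ⟨0, zero_mem_interior_proj h0⟩
  have tm : ∀ y ∈ interior (Prod.fst '' K), (y, top K y) ∈ K :=
    fun y hy => top_mem hK (interior_subset hy)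
  have bm : ∀ y ∈ interior (Prod.fst '' K), (y, bot K y) ∈ K :=
    fun y hy => bot_mem hK (interior_subset hy)
  rw [← measureReal_congr ae]
  have Ho : IsOpen (interior (Prod.fst '' K)) := isOpen_interior
  generalize interior (Prod.fst '' K) = H at *
  have : IsFiniteMeasure (μ.restrict H) := isFiniteMeasure_restrict.2 Hf
  have v0 : 0 < μ.real H := ENNReal.toReal_pos (Ho.measure_pos μ Hn).ne' Hf
  obtain ⟨M, hM⟩ := hK.exists_bound_of_continuousOn cφ.continuousOn
  obtain ⟨R, hR⟩ := hK.exists_bound_of_continuousOn continuous_snd.continuousOn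
  have nT : ∀ y ∈ H, 0 ≤ φ (y, top K y) ∧ φ (y, top K y) ≤ M := fun y hy =>
    ⟨φ0 _ (tm y hy), (le_abs_self _).trans (hM _ (tm y hy))⟩
  have nB : ∀ y ∈ H, 0 ≤ φ (y, bot K y) ∧ φ (y, bot K y) ≤ M := fun y hy =>
    ⟨φ0 _ (bm y hy), (le_abs_self _).trans (hM _ (bm y hy))⟩
  have nl : ∀ y ∈ H, 0 ≤ top K y - bot K y ∧ top K y - bot K y ≤ R + R := fun y hy =>
    ⟨sub_nonneg.2 (bot_le hK (tm y hy)), by
      linarith [(abs_le.1 (hR _ (tm y hy))).2, (abs_le.1 (hR _ (bm y hy))).1]⟩
  have cl : ConcaveOn ℝ H fun y => top K y - bot K y := tc.sub bc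
  have dT := bd_of μ Ho (cφ.comp_continuousOn (continuousOn_id.prodMk (tc.continuousOn Ho))) nT
  have dB := bd_of μ Ho (cφ.comp_continuousOn (continuousOn_id.prodMk (bc.continuousOn Ho))) nB
  have dl := bd_of μ Ho (cl.continuousOn Ho) nl
  have q1 : 1 ≤ p + 1 := by linarith
  have b1 := mul_pos v0 (bt_pos m le_rfl)
  have b2 := mul_pos v0 (bt_pos m hp)
  have b3 := (mul_pos v0 (bt_pos m q1)).le
  have bl : ∀ A, 0 ≤ A → ∫ y in H, top K y - bot K y ∂μ ≤ A * (μ.real H * bt m 1) →
      ∫ y in H, (top K y - bot K y) ^ p ∂μ ≤ A ^ p * (μ.real H * bt m p) ∧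
      ∫ y in H, (top K y - bot K y) ^ (p + 1) ∂μ ≤ A ^ (p + 1) * (μ.real H * bt m (p + 1)) :=
    fun A hA h => ⟨berwald μ hm m0 Ho Hn Hf cl nl le_rfl hp hA (by simpa using h),
      berwald μ hm m0 Ho Hn Hf cl nl le_rfl q1 hA (by simpa using h)⟩
  have ch : ∀ y, a * ((p + 1) * ∫ t in bot K y..top K y, φ (y, t) ^ p) =
      φ (y, top K y) ^ (p + 1) - φ (y, bot K y) ^ (p + 1) := fun y => by
    simp only [hφ]
    rw [mul_left_comm, intervalIntegral.mul_integral_comp_mul_add (f := fun s => s ^ p),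
      integral_rpow (Or.inl (by linarith))]
    field_simp
  have c0 : ∀ y s, a = 0 → ∫ t in bot K y..top K y, φ (y, t) ^ p =
      (top K y - bot K y) * φ (y, s) ^ p := fun y s h => by simp [hφ, h]
  have cv : ∀ w : V → ℝ, ConcaveOn ℝ H (fun y => a * w y) → ConcaveOn ℝ H fun y => φ (y, w y) :=
    fun w h => by
      simp only [hφ]
      exact h.add (((L : V →ₗ[ℝ] ℝ).concaveOn h.1).add_const c)
  simp only [Function.comp_apply] at j1 j2
  simp only [intervalIntegral.integral_const, smul_eq_mul, mul_one, integral_const,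
    MeasurableSet.univ, measureReal_restrict_apply, univ_inter] at j3
  rw [j2, j3]
  refine le_of_mul_le_mul_left ?_ v0
  rcases le_total 0 a with ha | ha
  · have := core hp ha b1 b2 b3 dT dB dl j1
      (fun X hX => berwald μ hm m0 Ho Hn Hf (cv _ (tc.smul ha)) nT hp (by linarith) hX) bl
      (.of_forall fun y => ⟨by simp only [Function.comp_apply, id, hφ]; ring, ch y, c0 y _⟩)
    simp only [Function.comp_apply, id] at this
    linarith
  · have := core hp (neg_nonneg.2 ha) b1 b2 b3 dB dT dl j1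
      (fun X hX => berwald μ hm m0 Ho Hn Hf (cv _ (by
        simpa [Pi.neg_def] using (bc.smul (neg_nonneg.2 ha)).neg)) nB hp (by linarith) hX) bl
      (.of_forall fun y => ⟨by simp only [Function.comp_apply, id, hφ]; ring,
        by simp only [Function.comp_apply, id]; linarith [ch y],
        fun h => c0 y _ (neg_eq_zero.1 h)⟩)
    simp only [Function.comp_apply, id] at this
    linarith

end Pool.Agent.MP_a32717_an.Aff
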