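import Pool.Agent.MP_a32717_an.Aff.Skew
import Pool.Agent.MP_a32717_an.Aff.Dir

/-! Squares of affine functions in the plane: the inequality for one direction. -/

open MeasureTheory Set Filter Topology Module
open scoped ENNReal NNReal

noncomputable section
namespace Pool.Agent.MP_a32717_an.Aff
open Pool.Agent.MP_a32717_an.Sym

theorem alg {A : Type*} [CommRing A] [Algebra ℝ A] (I : A →ₗ[ℝ] ℝ) (sq : ∀ z, 0 ≤ I (z ^ 2))
    {B l : A} {a r : ℝ} (ha : 0 < a) (r0 : 0 < r) (hr : 3 * r ^ 2 = 1) (v0 : 0 < I 1) (L0 : 0 < I l)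
    (hl : 3 * (I 1 * I (l ^ 2)) ≤ 4 * I l ^ 2)
    (sT : ∀ t : ℝ, I (B + a • l - t • 1) = 0 → I ((B + a • l - t • 1) ^ 3) ≤ 0)
    (sB : ∀ t : ℝ, I (B - t • 1) = 0 → 0 ≤ I ((B - t • 1) ^ 3)) :
    2 * I 1 * (I (l * B ^ 2) + a * I (l ^ 2 * B) + a ^ 2 * I (l ^ 3) / 3) ≤
      (1 + r) * I l * (2 * I (B ^ 2) + 2 * a * I (B * l) + a ^ 2 * I (l ^ 2)) := by
  have cen : ∀ z : A, ∃ (W : A) (b : ℝ), I W = 0 ∧ z = W + b • 1 := fun z =>
    ⟨z - (I z / I 1) • 1, I z / I 1, by rw [map_sub, map_smul, smul_eq_mul]; field_simp; ring, by simp⟩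
  obtain ⟨W, b, hW, rfl⟩ := cen B
  obtain ⟨D, k, hD, rfl⟩ := cen l
  have s1 := sT (b + a * k) (by simp [hW, hD]; ring)
  have s2 := sB b (by simp [hW])
  have s3 := sq ((2 * (b + a * k / 2) - r * k * a) • D - (2 * r * k) • W)
  have s4 := sq D
  rw [add_sub_cancel_right] at s2
  rw [show (W + b • 1 + a • (D + k • 1) - (b + a * k) • 1) ^ 3 = W ^ 3 + (3 * a) • (W ^ 2 * D) +
    (3 * a ^ 2) • (W * D ^ 2) + a ^ 3 • D ^ 3 by
      simp only [Algebra.smul_def, map_mul, map_add, map_pow, map_ofNat]; ring] at s1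
  rw [show ((2 * (b + a * k / 2) - r * k * a) • D - (2 * r * k) • W) ^ 2 =
    (2 * (b + a * k / 2) - r * k * a) ^ 2 • D ^ 2 + (2 * r * k) ^ 2 • W ^ 2 -
      (2 * (2 * (b + a * k / 2) - r * k * a) * (2 * r * k)) • (W * D) by
      generalize 2 * (b + a * k / 2) - r * k * a = x
      generalize 2 * r * k = y
      simp only [Algebra.smul_def, map_mul, map_pow, map_ofNat]; ring] at s3
  rw [show (D + k • 1) ^ 2 = D ^ 2 + (2 * k) • D + k ^ 2 • (1 : A) by
    simp only [Algebra.smul_def, map_mul, map_pow, map_ofNat]; ring] at hl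
  rw [show (D + k • 1) * (W + b • 1) ^ 2 = W ^ 2 * D + (2 * b) • (W * D) + b ^ 2 • D + k • W ^ 2 +
      (2 * b * k) • W + (k * b ^ 2) • (1 : A) by
      simp only [Algebra.smul_def, map_mul, map_pow, map_ofNat]; ring,
    show (D + k • 1) ^ 2 * (W + b • 1) = W * D ^ 2 + b • D ^ 2 + (2 * k) • (W * D) +
      (2 * k * b) • D + k ^ 2 • W + (k ^ 2 * b) • (1 : A) by
      simp only [Algebra.smul_def, map_mul, map_pow, map_ofNat]; ring,
    show (D + k • 1) ^ 3 = D ^ 3 + (3 * k) • D ^ 2 + (3 * k ^ 2) • D + k ^ 3 • (1 : A) by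
      simp only [Algebra.smul_def, map_mul, map_pow, map_ofNat]; ring,
    show (W + b • 1) ^ 2 = W ^ 2 + (2 * b) • W + b ^ 2 • (1 : A) by
      simp only [Algebra.smul_def, map_mul, map_pow, map_ofNat]; ring,
    show (W + b • 1) * (D + k • 1) = W * D + k • W + b • D + (b * k) • (1 : A) by
      simp only [Algebra.smul_def, map_mul]; ring,
    show (D + k • 1) ^ 2 = D ^ 2 + (2 * k) • D + k ^ 2 • (1 : A) by
      simp only [Algebra.smul_def, map_mul, map_pow, map_ofNat]; ring]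
  simp only [map_add, map_sub, map_smul, smul_eq_mul, hW, hD, zero_add, mul_zero, add_zero]
    at s1 s3 hl L0 ⊢
  generalize I 1 = v at *
  generalize I (D ^ 2) = dd at *
  generalize I (W ^ 2) = ww at *
  generalize I (W * D) = wd at *
  have k0 : 0 < k := (mul_pos_iff_of_pos_right v0).1 L0
  have t3 : I (W ^ 2 * D) + a * I (W * D ^ 2) + a ^ 2 * I (D ^ 3) / 3 ≤ 0 :=
    le_of_mul_le_mul_left (by linarith) (mul_pos three_pos ha)
  have d3 : dd ≤ r ^ 2 * k ^ 2 * v := by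
    refine le_of_mul_le_mul_left ?_ (mul_pos three_pos v0)
    rw [show 3 * v * (r ^ 2 * k ^ 2 * v) = 3 * r ^ 2 * (k * v) ^ 2 by ring, hr]
    linarith
  have key : 2 * (b + a * k / 2) * (2 * wd + a * dd) ≤
      r * k * (2 * (b + a * k / 2) ^ 2 * v + (2 * ww + 2 * a * wd + a ^ 2 * dd)) := by
    refine le_of_mul_le_mul_left ?_ (mul_pos two_pos (mul_pos r0 k0))
    nlinarith [mul_le_mul_of_nonneg_left d3 (sq_nonneg (b + a * k / 2)),
      mul_nonneg (sq_nonneg (r * k * a)) s4]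
  have p1 : 0 ≤ k * v * (a * k) ^ 2 := by positivity
  nlinarith [mul_le_mul_of_nonneg_left key v0.le, mul_le_mul_of_nonneg_left t3 v0.le,
    mul_nonneg v0.le p1, mul_nonneg (mul_nonneg v0.le p1) r0.le]

variable {α : Type*} [MeasurableSpace α]

/-- bounded measurable functions -/
def BM (ν : Measure α) : Subalgebra ℝ (α → ℝ) where
  carrier := {f | AEStronglyMeasurable f ν ∧ ∃ M, ∀ᵐ y ∂ν, |f y| ≤ M}
  mul_mem' := fun ⟨a, M, h⟩ ⟨b, N, k⟩ => ⟨a.mul b, M * N, (h.and k).mono fun y q => by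
    rw [Pi.mul_apply, abs_mul]
    exact mul_le_mul q.1 q.2 (abs_nonneg _) ((abs_nonneg _).trans q.1)⟩
  add_mem' := fun ⟨a, M, h⟩ ⟨b, N, k⟩ => ⟨a.add b, M + N, (h.and k).mono fun _ q =>
    (abs_add_le _ _).trans (add_le_add q.1 q.2)⟩
  algebraMap_mem' := fun c => ⟨aestronglyMeasurable_const, |c|, .of_forall fun _ => le_rfl⟩

lemma BM.int {ν : Measure α} [IsFiniteMeasure ν] (f : BM ν) : Integrable f.1 ν :=
  .of_bound f.2.1 _ f.2.2.choose_spec

/-- the integral -/
def II (ν : Measure α) [IsFiniteMeasure ν] : BM ν →ₗ[ℝ] ℝ where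
  toFun f := ∫ y, f.1 y ∂ν
  map_add' f g := integral_add (BM.int f) (BM.int g)
  map_smul' c f := integral_const_mul c f.1

variable {V : Type*} [NormedAddCommGroup V] [NormedSpace ℝ V] [FiniteDimensional ℝ V]
  [MeasurableSpace V] [BorelSpace V] (μ : Measure V) [μ.IsAddHaarMeasure]

theorem core2 (hm : finrank ℝ V = 1) {H : Set V} (Ho : IsOpen H) (Hn : H.Nonempty) (Hf : μ H ≠ ∞)
    {B l : V → ℝ} {a r M : ℝ} (ha : 0 ≤ a) (r0 : 0 < r) (hr : 3 * r ^ 2 = 1)
    (cB : ConvexOn ℝ H B) (cl : ConcaveOn ℝ H l) (cT : ConcaveOn ℝ H fun y => B y + a * l y)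
    (hB : ∀ y ∈ H, |B y| ≤ M) (hl : ∀ y ∈ H, 0 ≤ l y ∧ l y ≤ M) (L0 : 0 < ∫ y in H, l y ∂μ) :
    2 * μ.real H * ∫ y in H, (l y * B y ^ 2 + a * (l y ^ 2 * B y) + a ^ 2 / 3 * l y ^ 3) ∂μ ≤
      (1 + r) * (∫ y in H, l y ∂μ) * (∫ y in H, (B y + a * l y) ^ 2 ∂μ + ∫ y in H, B y ^ 2 ∂μ) := by
  have : IsFiniteMeasure (μ.restrict H) := isFiniteMeasure_restrict.2 Hf
  have v0 : 0 < μ.real H := ENNReal.toReal_pos (Ho.measure_pos μ Hn).ne' Hf
  have hl' : ∀ y ∈ H, |l y| ≤ M := fun y hy => by rw [abs_of_nonneg (hl y hy).1]; exact (hl y hy).2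
  let B' : BM (μ.restrict H) := ⟨B, (cB.continuousOn Ho).aestronglyMeasurable Ho.measurableSet, M,
    ae_restrict_of_forall_mem Ho.measurableSet hB⟩
  let l' : BM (μ.restrict H) := ⟨l, (cl.continuousOn Ho).aestronglyMeasurable Ho.measurableSet, M,
    ae_restrict_of_forall_mem Ho.measurableSet hl'⟩
  have i1 : II (μ.restrict H) 1 = μ.real H := by simp [II]
  have i2 : II (μ.restrict H) l' = ∫ y in H, l y ∂μ := rfl
  have b2 : bt 1 2 = 1 / 3 := by
    have := bt_succ 1 le_rfl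
    rw [bt_one, one_add_one_eq_two] at this
    push_cast at this
    linarith
  have be := berwald μ hm one_ne_zero Ho Hn Hf cl hl le_rfl one_le_two
    (X := 2 * (∫ y in H, l y ∂μ) / μ.real H) (by positivity) (by
      simp only [Real.rpow_one, bt_one]; push_cast; field_simp; norm_num)
  simp only [Real.rpow_two, b2] at be
  have h := lim_le (a := 0) (F := fun ε => (1 + r) * II _ l' * (2 * II _ (B' ^ 2) +
      2 * (a + ε) * II _ (B' * l') + (a + ε) ^ 2 * II _ (l' ^ 2)) - 2 * II (μ.restrict H) 1 *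
      (II _ (l' * B' ^ 2) + (a + ε) * II _ (l' ^ 2 * B') + (a + ε) ^ 2 * II _ (l' ^ 3) / 3))
    (by fun_prop) fun ε hε => sub_nonneg.2 (alg (II (μ.restrict H))
      (fun z => integral_nonneg fun y => sq_nonneg (z.1 y)) (by linarith) r0 hr (i1 ▸ v0) L0
      (by
        rw [i1, i2]
        refine (mul_le_mul_of_nonneg_left (mul_le_mul_of_nonneg_left be v0.le) zero_le_three).trans_eq ?_
        field_simp; norm_num)
      (fun t ht => by
        refine le_of_eq_of_le ?_ (skew μ hm Ho Hn Hf (T := fun y => B y + (a + ε) * l y)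
          (M := M + (a + ε) * M) (t := t) ((cT.add (cl.smul hε.le)).congr fun y _ => by
            simp only [Pi.add_apply, smul_eq_mul]; ring) (fun y hy =>
            (abs_add_le _ _).trans (add_le_add (hB y hy) (by
              rw [abs_mul, abs_of_pos (by linarith)]
              exact mul_le_mul_of_nonneg_left (hl' y hy) (by linarith)))) ?_)
        · simp [II, B', l']
        · simpa [II, B', l'] using ht)
      fun t ht => by
        have := skew μ hm Ho Hn Hf (T := fun y => -B y) (M := M) (t := -t) cB.neg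
          (fun y hy => by rw [abs_neg]; exact hB y hy) (by
            rw [← neg_eq_zero, ← integral_neg, ← ht]
            exact integral_congr_ae (.of_forall fun y => by simp [B']; ring))
        rw [← neg_nonneg, ← integral_neg] at this
        exact this.trans_eq (integral_congr_ae (.of_forall fun y => by simp [B']; ring)))
  have e1 : ∫ y in H, (l y * B y ^ 2 + a * (l y ^ 2 * B y) + a ^ 2 / 3 * l y ^ 3) ∂μ =
      II _ (l' * B' ^ 2 + a • (l' ^ 2 * B') + (a ^ 2 / 3) • l' ^ 3) := rfl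
  have e2 : ∫ y in H, (B y + a * l y) ^ 2 ∂μ =
      II _ (B' ^ 2 + (2 * a) • (B' * l') + a ^ 2 • l' ^ 2) :=
    integral_congr_ae (.of_forall fun y => by simp [B', l']; ring)
  have e3 : ∫ y in H, B y ^ 2 ∂μ = II _ (B' ^ 2) := rfl
  rw [e1, e2, e3, ← i1, ← i2]
  simp only [map_add, map_smul, smul_eq_mul, add_zero] at h ⊢
  linarith

end Pool.Agent.MP_a32717_an.Aff
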