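import Pool.Agent.MP_a32717_an.Aff.Core
import Pool.Agent.MP_a32717_an.Sym.Mean
import Pool.Agent.MP_5b99fd_an.Slice

/-! Berwald's inequality for the moments of a concave function. -/

open MeasureTheory Set Filter Topology Module
open scoped ENNReal NNReal

noncomputable section
namespace Pool.Agent.MP_a32717_an.Aff

/-- the moment of order `q` of the height in a cone of dimension `m` -/
def bt (m : ℕ) (q : ℝ) : ℝ := q * ∫ t in (0 : ℝ)..1, t ^ (q - 1) * (1 - t) ^ m

lemma bt_cont (m : ℕ) {q : ℝ} (hq : 0 ≤ q) : Continuous fun t : ℝ => t ^ q * (1 - t) ^ m :=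
  (Real.continuous_rpow_const hq).mul (by fun_prop)

lemma bt_pos (m : ℕ) {q : ℝ} (hq : 1 ≤ q) : 0 < bt m q :=
  mul_pos (by linarith) (intervalIntegral.intervalIntegral_pos_of_pos_on
    ((bt_cont m (by linarith)).intervalIntegrable _ _)
    (fun t ht => mul_pos (Real.rpow_pos_of_pos ht.1 _) (pow_pos (sub_pos.2 ht.2) _)) one_pos)

lemma bt_one (m : ℕ) : bt m 1 = 1 / (m + 1) := by
  simp only [bt, sub_self, Real.rpow_zero, one_mul]
  rw [intervalIntegral.integral_comp_sub_left (fun y : ℝ => y ^ m), integral_pow]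
  simp

lemma bt_succ (m : ℕ) {p : ℝ} (hp : 1 ≤ p) : bt m (p + 1) * (p + m + 1) = (p + 1) * bt m p := by
  have p0 : 0 < p := by linarith
  have i1 := (bt_cont m (q := p - 1) (by linarith)).intervalIntegrable (μ := volume) 0 1
  have i2 := (bt_cont m p0.le).intervalIntegrable (μ := volume) 0 1
  have h := intervalIntegral.integral_eq_sub_of_hasDerivAt_of_le (f := fun t : ℝ => t ^ p * (1 - t) ^ (m + 1))
    (f' := fun t => p * (t ^ (p - 1) * (1 - t) ^ m) - (p + m + 1) * (t ^ p * (1 - t) ^ m))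
    zero_le_one (bt_cont _ p0.le).continuousOn (fun t ht => by
      have a := (Real.hasDerivAt_rpow_const (p := p) (Or.inl ht.1.ne')).mul
        (((hasDerivAt_id t).const_sub 1).pow (m + 1))
      refine a.congr_deriv ?_
      simp only [id, Pi.pow_apply, Nat.add_sub_cancel]
      rw [show t ^ p = t ^ (p - 1) * t by rw [← Real.rpow_add_one ht.1.ne', sub_add_cancel]]
      push_cast; ring) ((i1.const_mul _).sub (i2.const_mul _))
  rw [intervalIntegral.integral_sub (i1.const_mul _) (i2.const_mul _),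
    intervalIntegral.integral_const_mul, intervalIntegral.integral_const_mul,
    Real.zero_rpow p0.ne'] at h
  simp only [sub_self, ne_eq, Nat.add_eq_zero_iff, one_ne_zero, and_false, not_false_eq_true,
    zero_pow, mul_zero, zero_mul] at h
  simp only [bt, add_sub_cancel_right]
  linear_combination -(p + 1) * h

lemma cone {m : ℕ} (m0 : m ≠ 0) {q v X : ℝ} (hq : 1 ≤ q) (hv : 0 ≤ v) (hX : 0 < X) :
    ENNReal.ofReal q * ∫⁻ t in Ioi (0 : ℝ), ENNReal.ofReal (v * max (1 - t / X) 0 ^ m) *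
      ENNReal.ofReal (t ^ (q - 1)) = ENNReal.ofReal (X ^ q * (v * bt m q)) := by
  have c := (bt_cont m (q := q - 1) (by linarith)).const_mul (v * X ^ (q - 1))
  have n : ∀ t ∈ Ioo (0 : ℝ) 1, 0 ≤ v * X ^ (q - 1) * (t ^ (q - 1) * (1 - t) ^ m) := fun t ht =>
    mul_nonneg (by positivity) (mul_nonneg (Real.rpow_nonneg ht.1.le _)
      (pow_nonneg (sub_pos.2 ht.2).le _))
  rw [Sym.lintegral_Ioi_scale _ hX, ← Ioc_union_Ioi_eq_Ioi zero_le_one,
    lintegral_union measurableSet_Ioi (Ioc_disjoint_Ioi le_rfl),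
    setLIntegral_congr_fun (g := fun _ => 0) measurableSet_Ioi fun s hs => by
      rw [mul_div_cancel_left₀ _ hX.ne', max_eq_right (sub_nonpos.2 (le_of_lt hs))]; simp [m0],
    lintegral_zero, add_zero, ← setLIntegral_congr Ioo_ae_eq_Ioc,
    setLIntegral_congr_fun (g := fun t => ENNReal.ofReal
      (v * X ^ (q - 1) * (t ^ (q - 1) * (1 - t) ^ m))) measurableSet_Ioo fun s hs => by
      rw [mul_div_cancel_left₀ _ hX.ne', max_eq_left (sub_pos.2 hs.2).le, Real.mul_rpow hX.le hs.1.le,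
        ← ENNReal.ofReal_mul (mul_nonneg hv (pow_nonneg (sub_pos.2 hs.2).le _))]
      congr 1; ring,
    ← ofReal_integral_eq_lintegral_ofReal (c.integrableOn_Icc.mono_set Ioo_subset_Icc_self)
      (ae_restrict_of_forall_mem measurableSet_Ioo n), ← integral_Ioc_eq_integral_Ioo,
    ← intervalIntegral.integral_of_le zero_le_one, intervalIntegral.integral_const_mul,
    ← ENNReal.ofReal_mul hX.le, ← ENNReal.ofReal_mul (by linarith), bt,
    show X ^ q = X ^ (q - 1) * X by rw [← Real.rpow_add_one hX.ne', sub_add_cancel]]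
  congr 1; ring

variable {V : Type*} [NormedAddCommGroup V] [NormedSpace ℝ V] [FiniteDimensional ℝ V]
  [MeasurableSpace V] [BorelSpace V] (μ : Measure V) [μ.IsAddHaarMeasure] {m : ℕ}

theorem bmv (hm : finrank ℝ V = m) (m0 : m ≠ 0) {A B C : Set V} {l a b : ℝ} (h0 : 0 < l)
    (h1 : l < 1) (ha : 0 < a) (hb : 0 < b) (hA : MeasurableSet A) (hB : MeasurableSet B)
    (hC : MeasurableSet C) (vA : μ A = ENNReal.ofReal (a ^ m)) (vB : μ B = ENNReal.ofReal (b ^ m))
    (h : ∀ x ∈ A, ∀ y ∈ B, (1 - l) • x + l • y ∈ C) :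
    ENNReal.ofReal (((1 - l) * a + l * b) ^ m) ≤ μ C := by
  let L : V ≃L[ℝ] (Fin m → ℝ) := ContinuousLinearEquiv.ofFinrankEq (by simp [hm])
  obtain ⟨c, c0, -, -, v⟩ := Sym.haar_transport L μ (volume : Measure (Fin m → ℝ))
  obtain ⟨t, t0, ht⟩ : ∃ t : ℝ, 0 < t ∧ t ^ m = c :=
    ⟨(c : ℝ) ^ ((m : ℝ)⁻¹), by positivity, Real.rpow_inv_natCast_pow c.2 m0⟩
  have ms : ∀ {S : Set V}, MeasurableSet S → MeasurableSet (L.symm ⁻¹' S) := fun hS =>
    hS.preimage L.symm.continuous.measurable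
  have v' : ∀ S : Set V, volume (L.symm ⁻¹' S) = c * μ S := fun S => by
    rw [v]; simp [preimage_preimage]
  have e : ∀ x : ℝ, ENNReal.ofReal ((t * x) ^ m) = c * ENNReal.ofReal (x ^ m) := fun x => by
    rw [mul_pow, ht, ENNReal.ofReal_mul c.coe_nonneg, ENNReal.ofReal_coe_nnreal]
  have key := MP_5b99fd_an.bm h0 h1 (mul_pos t0 ha) (mul_pos t0 hb) (ms hA) (ms hB) (ms hC)
    (by rw [v', vA, e]) (by rw [v', vB, e]) fun x hx y hy => by simpa using h _ hx _ hy
  rw [v', show (1 - l) * (t * a) + l * (t * b) = t * ((1 - l) * a + l * b) by ring, e] at key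
  exact (ENNReal.mul_le_mul_iff_right (by simpa using c0) ENNReal.coe_ne_top).1 key

omit [FiniteDimensional ℝ V] [μ.IsAddHaarMeasure] [NormedSpace ℝ V] in
lemma bd_of {H : Set V} (Ho : IsOpen H) {u : V → ℝ} (cu : ContinuousOn u H) {M : ℝ}
    (hu : ∀ y ∈ H, 0 ≤ u y ∧ u y ≤ M) : Bd (μ.restrict H) u :=
  ⟨cu.aestronglyMeasurable Ho.measurableSet, M, ae_restrict_of_forall_mem Ho.measurableSet hu⟩

omit [FiniteDimensional ℝ V] [μ.IsAddHaarMeasure] [NormedSpace ℝ V] [BorelSpace V]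
  [NormedAddCommGroup V] in
lemma cake {H : Set V} (Hm : MeasurableSet H) (Hf : μ H ≠ ∞) {u : V → ℝ} (b : Bd (μ.restrict H) u)
    {q : ℝ} (hq : 0 < q) : ENNReal.ofReal (∫ y in H, u y ^ q ∂μ) = ENNReal.ofReal q *
      ∫⁻ t in Ioi (0 : ℝ), μ ({y | t < u y} ∩ H) * ENNReal.ofReal (t ^ (q - 1)) := by
  have : IsFiniteMeasure (μ.restrict H) := isFiniteMeasure_restrict.2 Hf
  rw [ofReal_integral_eq_lintegral_ofReal (b.pow hq.le).int (b.pow hq.le).nn,
    lintegral_rpow_eq_lintegral_meas_lt_mul _ b.nn b.1.aemeasurable hq]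
  simp only [Measure.restrict_apply' Hm]

theorem berwald (hm : finrank ℝ V = m) (m0 : m ≠ 0) {H : Set V} (Ho : IsOpen H) (Hn : H.Nonempty)
    (Hf : μ H ≠ ∞) {u : V → ℝ} (cu : ConcaveOn ℝ H u) {M : ℝ} (hu : ∀ y ∈ H, 0 ≤ u y ∧ u y ≤ M)
    {r s X : ℝ} (hr : 1 ≤ r) (hs : r ≤ s) (hX : 0 ≤ X)
    (h : ∫ y in H, u y ^ r ∂μ ≤ X ^ r * (μ.real H * bt m r)) :
    ∫ y in H, u y ^ s ∂μ ≤ X ^ s * (μ.real H * bt m s) := by
  have v0 : 0 < μ.real H := ENNReal.toReal_pos (Ho.measure_pos μ Hn).ne' Hf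
  have := lim_le (a := ∫ y in H, u y ^ s ∂μ) (F := fun ε => (X + ε) ^ s * (μ.real H * bt m s))
    ((cpow (by linarith) (by fun_prop)).mul continuous_const) fun ε hε => ?_
  · simpa using this
  have k := pow_up hX (mul_pos v0 (bt_pos m hr)).le (by linarith) hε h
  have x0 : 0 < X + ε := by linarith
  generalize X + ε = X at *
  have co := cu.continuousOn Ho
  have b := bd_of μ Ho co hu
  set S : ℝ → ℝ≥0∞ := fun t => μ ({y | t < u y} ∩ H) with hS
  set C : ℝ → ℝ≥0∞ := fun t => ENNReal.ofReal (μ.real H * max (1 - t / X) 0 ^ m) with hC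
  have mS : ∀ t, MeasurableSet ({y | t < u y} ∩ H) := fun t => by
    rw [inter_comm]; exact (co.isOpen_inter_preimage Ho isOpen_Ioi).measurableSet
  obtain ⟨a, a0, ea⟩ : ∃ a : ℝ, 0 < a ∧ a ^ m = μ.real H :=
    ⟨μ.real H ^ ((m : ℝ)⁻¹), by positivity, Real.rpow_inv_natCast_pow v0.le m0⟩
  have cr : ∀ t t', 0 < t' → t' < t → C t < S t → C t' ≤ S t' := fun t t' h1 h2 h3 => by
    have f : S t ≠ ∞ := ne_top_of_le_ne_top Hf (measure_mono inter_subset_right)
    have s0 := ENNReal.toReal_pos h3.ne_bot f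
    obtain ⟨b, b0, eb⟩ : ∃ b : ℝ, 0 < b ∧ b ^ m = (S t).toReal :=
      ⟨(S t).toReal ^ ((m : ℝ)⁻¹), by positivity, Real.rpow_inv_natCast_pow s0.le m0⟩
    have t0 : 0 < t := h1.trans h2
    have l0 : 0 < t' / t := by positivity
    have l1 : t' / t < 1 := (div_lt_one t0).2 h2
    refine le_trans (ENNReal.ofReal_le_ofReal ?_) (bmv μ hm m0 l0 l1 a0 b0 Ho.measurableSet (mS t)
      (mS t') (by rw [ea, Measure.real, ENNReal.ofReal_toReal Hf])
      (by rw [eb, ENNReal.ofReal_toReal f]) fun x hx y hy => ?_)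
    · have h4 := (ENNReal.ofReal_lt_iff_lt_toReal (by positivity) f).1 h3
      rw [← ea, ← eb, ← mul_pow] at h4
      have h5 := (mul_le_mul_of_nonneg_left (le_max_left (1 - t / X) 0) a0.le).trans_lt
        (lt_of_pow_lt_pow_left₀ _ b0.le h4)
      rw [← ea, ← mul_pow, mul_max_of_nonneg _ _ a0.le]
      refine pow_le_pow_left₀ (by simp) (max_le ?_ (by nlinarith)) _
      rw [show t' / X = t' / t * (t / X) by field_simp]
      nlinarith
    · refine ⟨?_, cu.1 hx hy.2 (by linarith) l0.le (by ring)⟩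
      have e := cu.2 hx hy.2 (by linarith : 0 ≤ 1 - t' / t) l0.le (by ring)
      have e2 := mul_lt_mul_of_pos_left hy.1.out l0
      rw [div_mul_cancel₀ _ t0.ne'] at e2
      simp only [smul_eq_mul] at e
      exact lt_of_lt_of_le (by nlinarith [(hu x hx).1]) e
  have bG : BddAbove (insert 0 {t | C t < S t}) := bddAbove_insert.2 ⟨M, fun t ht => by
    obtain ⟨y, y1, y2⟩ := nonempty_of_measure_ne_zero (μ := μ) (s := {y | t < u y} ∩ H) ht.out.ne_bot
    exact y1.out.le.trans (hu y y2).2⟩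
  set t0 := sSup (insert 0 {t | C t < S t}) with ht0
  have z : 0 ≤ t0 := le_csSup bG (mem_insert _ _)
  have mC : ∀ q : ℝ, Measurable fun t => C t * ENNReal.ofReal (t ^ q) := fun q => by fun_prop
  have key : ∫⁻ t in Ioi (0 : ℝ), (S t * ENNReal.ofReal (t ^ (s - 1)) +
      ENNReal.ofReal (t0 ^ (s - r)) * (C t * ENNReal.ofReal (t ^ (r - 1)))) ≤
      ∫⁻ t in Ioi (0 : ℝ), (C t * ENNReal.ofReal (t ^ (s - 1)) +
      ENNReal.ofReal (t0 ^ (s - r)) * (S t * ENNReal.ofReal (t ^ (r - 1)))) := by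
    refine setLIntegral_mono' measurableSet_Ioi fun t ht => ?_
    have ht' : 0 < t := ht
    rw [show t ^ (s - 1) = t ^ (s - r) * t ^ (r - 1) by rw [← Real.rpow_add ht']; congr 1; ring,
      ENNReal.ofReal_mul (by positivity)]
    have : S t * ENNReal.ofReal (t ^ (s - r)) + C t * ENNReal.ofReal (t0 ^ (s - r)) ≤
        C t * ENNReal.ofReal (t ^ (s - r)) + S t * ENNReal.ofReal (t0 ^ (s - r)) := by
      rcases lt_trichotomy t t0 with o | o | o
      · obtain ⟨w, w1, w2⟩ := exists_lt_of_lt_csSup (insert_nonempty _ _) o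
        have := cr w t ht' w2 (w1.resolve_left (ht'.trans w2).ne')
        exact (add_comm _ _).trans_le (Sym.rearr this (ENNReal.ofReal_le_ofReal
          (Real.rpow_le_rpow ht'.le o.le (by linarith))))
      · rw [o, add_comm]
      · have : S t ≤ C t := not_lt.1 fun w => (le_csSup bG (mem_insert_of_mem _ w)).not_gt o
        exact (Sym.rearr this (ENNReal.ofReal_le_ofReal
          (Real.rpow_le_rpow z o.le (by linarith)))).trans_eq (add_comm _ _)
    refine le_trans (le_of_eq ?_) ((mul_le_mul_left this (ENNReal.ofReal (t ^ (r - 1)))).trans_eq ?_)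
    · ring
    · ring
  rw [lintegral_add_right _ ((mC _).const_mul _), lintegral_add_left (mC _),
    lintegral_const_mul' _ _ ENNReal.ofReal_ne_top,
    lintegral_const_mul' _ _ ENNReal.ofReal_ne_top] at key
  have r0 : ENNReal.ofReal r ≠ 0 := by simp; linarith
  have c1 := cone m0 hr v0.le x0
  have k1 := ENNReal.ofReal_le_ofReal k
  rw [cake μ Ho.measurableSet Hf b (by linarith), ← c1,
    ENNReal.mul_le_mul_iff_right r0 ENNReal.ofReal_ne_top] at k1
  have k2 := ENNReal.le_of_add_le_add_right (ENNReal.mul_ne_top ENNReal.ofReal_ne_top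
    (ENNReal.lt_top_of_mul_ne_top_right (c1 ▸ ENNReal.ofReal_ne_top) r0).ne)
    (key.trans (add_le_add_right (mul_le_mul_right k1 _) _))
  rw [← ENNReal.ofReal_le_ofReal_iff (mul_pos (by positivity)
    (mul_pos v0 (bt_pos m (hr.trans hs)))).le, cake μ Ho.measurableSet Hf b (by linarith),
    ← cone m0 (hr.trans hs) v0.le x0]
  exact mul_le_mul_right k2 _

end Pool.Agent.MP_a32717_an.Aff
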