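import Pool.Agent.MP_a32717_an.Sym.Line

/-! The inequality for one direction, on an abstract finite measure space. -/

open MeasureTheory Set Filter Topology

noncomputable section
namespace Pool.Agent.MP_a32717_an.Aff

variable {α : Type*} [MeasurableSpace α] {ν : Measure α} {f g : α → ℝ}

/-- measurable, nonnegative and bounded -/
def Bd (ν : Measure α) (f : α → ℝ) : Prop :=
  AEStronglyMeasurable f ν ∧ ∃ M, ∀ᵐ y ∂ν, 0 ≤ f y ∧ f y ≤ M

lemma Bd.nn (h : Bd ν f) : ∀ᵐ y ∂ν, 0 ≤ f y := h.2.choose_spec.mono fun _ q => q.1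

lemma Bd.int [IsFiniteMeasure ν] (h : Bd ν f) : Integrable f ν := by
  obtain ⟨a, M, hM⟩ := h
  exact .of_bound a M (hM.mono fun y q => by rw [Real.norm_of_nonneg q.1]; exact q.2)

lemma Bd.pow (h : Bd ν f) {p : ℝ} (hp : 0 ≤ p) : Bd ν fun y => f y ^ p := by
  obtain ⟨a, M, hM⟩ := h
  exact ⟨(Real.continuous_rpow_const hp).comp_aestronglyMeasurable a, M ^ p,
    hM.mono fun y q => ⟨Real.rpow_nonneg q.1 _, Real.rpow_le_rpow q.1 q.2 hp⟩⟩

lemma Bd.mul (h : Bd ν f) (k : Bd ν g) : Bd ν fun y => f y * g y := by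
  obtain ⟨a, M, hM⟩ := h
  obtain ⟨b, N, hN⟩ := k
  exact ⟨a.mul b, M * N, (hM.and hN).mono fun y q => ⟨mul_nonneg q.1.1 q.2.1,
    mul_le_mul q.1.2 q.2.2 q.2.1 (q.1.1.trans q.1.2)⟩⟩

lemma lim_le {a : ℝ} {F : ℝ → ℝ} (hF : Continuous F) (h : ∀ ε > 0, a ≤ F ε) : a ≤ F 0 :=
  ge_of_tendsto ((hF.tendsto 0).mono_left (nhdsWithin_le_nhds (s := Ioi 0)))
    (eventually_mem_nhdsWithin.mono h)

lemma pow_up {X b q ε I : ℝ} (hX : 0 ≤ X) (hb : 0 ≤ b) (hq : 0 ≤ q) (hε : 0 < ε)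
    (h : I ≤ X ^ q * b) : I ≤ (X + ε) ^ q * b :=
  h.trans (mul_le_mul_of_nonneg_right (Real.rpow_le_rpow hX (by linarith) hq) hb)

lemma cpow {q : ℝ} (hq : 0 ≤ q) {F : ℝ → ℝ} (hF : Continuous F) : Continuous fun x => F x ^ q :=
  (Real.continuous_rpow_const hq).comp hF

variable [IsFiniteMeasure ν]

/-- Hoelder -/
lemma hold {p A X b : ℝ} (hp : 0 < p) (hf : Bd ν f) (hg : Bd ν g) (hA : 0 ≤ A) (hX : 0 ≤ X)
    (hb : 0 ≤ b) (h1 : ∫ y, f y ^ (p + 1) ∂ν ≤ A ^ (p + 1) * b)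
    (h2 : ∫ y, g y ^ (p + 1) ∂ν ≤ X ^ (p + 1) * b) : ∫ y, f y * g y ^ p ∂ν ≤ A * X ^ p * b := by
  have q0 : 0 < p + 1 := by linarith
  have := lim_le (a := ∫ y, f y * g y ^ p ∂ν) (F := fun ε => (A + ε) * (X + ε) ^ p * b)
    (((by fun_prop : Continuous fun ε : ℝ => A + ε).mul (cpow hp.le (by fun_prop))).mul
      continuous_const) fun ε hε => ?_
  · simpa using this
  have k1 := pow_up hA hb q0.le hε h1
  have k2 := pow_up hX hb q0.le hε h2
  have a0 : 0 < A + ε := by linarith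
  have x0 : 0 < X + ε := by linarith
  generalize A + ε = A at *
  generalize X + ε = X at *
  have a1 := Real.rpow_pos_of_pos a0 (p + 1)
  have x1 := Real.rpow_pos_of_pos x0 (p + 1)
  have x2 := Real.rpow_pos_of_pos x0 p
  have i1 := (hf.pow q0.le).int
  have i2 := (hg.pow q0.le).int
  calc _ ≤ ∫ y, (A * X ^ p / ((p + 1) * A ^ (p + 1)) * f y ^ (p + 1) +
        A * X ^ p * p / ((p + 1) * X ^ (p + 1)) * g y ^ (p + 1)) ∂ν := by
        refine integral_mono_ae (hf.mul (hg.pow hp.le)).int ((i1.const_mul _).add (i2.const_mul _))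
          ((hf.nn.and hg.nn).mono fun y h => ?_)
        have e := Real.geom_mean_le_arith_mean2_weighted (w₁ := 1 / (p + 1)) (w₂ := p / (p + 1))
          (p₁ := (f y / A) ^ (p + 1)) (p₂ := (g y / X) ^ (p + 1)) (by positivity) (by positivity)
          (Real.rpow_nonneg (div_nonneg h.1 a0.le) _) (Real.rpow_nonneg (div_nonneg h.2 x0.le) _)
          (by field_simp; ring)
        rw [← Real.rpow_mul (div_nonneg h.1 a0.le), ← Real.rpow_mul (div_nonneg h.2 x0.le),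
          mul_one_div_cancel q0.ne', mul_div_cancel₀ _ q0.ne', Real.rpow_one,
          Real.div_rpow h.2 x0.le, Real.div_rpow h.2 x0.le, Real.div_rpow h.1 a0.le] at e
        refine le_trans (le_of_eq ?_) ((mul_le_mul_of_nonneg_left e (mul_pos a0 x2).le).trans_eq ?_)
        · field_simp
        · field_simp
    _ ≤ A * X ^ p / ((p + 1) * A ^ (p + 1)) * (A ^ (p + 1) * b) +
        A * X ^ p * p / ((p + 1) * X ^ (p + 1)) * (X ^ (p + 1) * b) := by
        rw [integral_add (i1.const_mul _) (i2.const_mul _), integral_const_mul, integral_const_mul]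
        gcongr
    _ = _ := by field_simp; ring

/-- Minkowski -/
lemma mink {p A Y b a : ℝ} (hp : 1 ≤ p) (hf : Bd ν f) (hg : Bd ν g) (hA : 0 ≤ A) (hY : 0 ≤ Y)
    (hb : 0 ≤ b) (ha : 0 < a) (h1 : ∫ y, f y ^ p ∂ν ≤ A ^ p * b)
    (h2 : ∫ y, g y ^ p ∂ν ≤ Y ^ p * b) : ∫ y, (g y + a * f y) ^ p ∂ν ≤ (Y + a * A) ^ p * b := by
  have q0 : 0 < p := by linarith
  have := lim_le (a := ∫ y, (g y + a * f y) ^ p ∂ν) (F := fun ε => (Y + ε + a * (A + ε)) ^ p * b)
    ((cpow q0.le (by fun_prop)).mul continuous_const) fun ε hε => ?_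
  · simpa using this
  have k1 := pow_up hA hb q0.le hε h1
  have k2 := pow_up hY hb q0.le hε h2
  have a0 : 0 < A + ε := by linarith
  have x0 : 0 < Y + ε := by linarith
  generalize A + ε = A at *
  generalize Y + ε = Y at *
  have s0 : 0 < Y + a * A := by positivity
  have a1 := Real.rpow_pos_of_pos a0 p
  have x1 := Real.rpow_pos_of_pos x0 p
  have s1 := Real.rpow_pos_of_pos s0 p
  have i1 := (hf.pow q0.le).int
  have i2 := (hg.pow q0.le).int
  calc _ ≤ ∫ y, ((Y + a * A) ^ p * (Y / (Y + a * A)) / Y ^ p * g y ^ p +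
        (Y + a * A) ^ p * (a * A / (Y + a * A)) / A ^ p * f y ^ p) ∂ν := by
        refine integral_mono_of_nonneg ((hf.nn.and hg.nn).mono fun y h =>
          Real.rpow_nonneg (add_nonneg h.2 (mul_nonneg ha.le h.1)) _)
          ((i2.const_mul _).add (i1.const_mul _)) ((hf.nn.and hg.nn).mono fun y h => ?_)
        have e := (convexOn_rpow hp).2 (mem_Ici.2 (div_nonneg h.2 x0.le))
          (mem_Ici.2 (div_nonneg h.1 a0.le)) (show 0 ≤ Y / (Y + a * A) by positivity)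
          (show 0 ≤ a * A / (Y + a * A) by positivity) (by field_simp)
        simp only [smul_eq_mul] at e
        rw [show Y / (Y + a * A) * (g y / Y) + a * A / (Y + a * A) * (f y / A) =
          (g y + a * f y) / (Y + a * A) by field_simp, Real.div_rpow h.2 x0.le,
          Real.div_rpow h.1 a0.le, Real.div_rpow (add_nonneg h.2 (mul_nonneg ha.le h.1)) s0.le] at e
        refine le_trans (le_of_eq ?_) ((mul_le_mul_of_nonneg_left e s1.le).trans_eq ?_)
        · field_simp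
        · field_simp
    _ ≤ (Y + a * A) ^ p * (Y / (Y + a * A)) / Y ^ p * (Y ^ p * b) +
        (Y + a * A) ^ p * (a * A / (Y + a * A)) / A ^ p * (A ^ p * b) := by
        rw [integral_add (i2.const_mul _) (i1.const_mul _), integral_const_mul, integral_const_mul]
        gcongr
    _ = _ := by field_simp

lemma hh1 {p x y : ℝ} (hp : 1 ≤ p) (hy : 0 ≤ y) (h : y ≤ x) :
    x ^ (p + 1) - y ^ (p + 1) ≤ (p + 1) * ((x - y) * (y ^ p + x ^ p) / 2) := by
  have := Sym.hh (φ := fun t => t ^ p) h (Real.continuous_rpow_const (by linarith)) fun r hr => ?_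
  · rwa [integral_rpow (Or.inl (by linarith)), div_le_iff₀' (by linarith)] at this
  rcases h.eq_or_lt with rfl | l
  · obtain rfl : r = y := le_antisymm hr.2 hr.1
    simp
  have d : 0 < x - y := sub_pos.2 l
  have e := (convexOn_rpow hp).2 (mem_Ici.2 hy) (mem_Ici.2 (hy.trans h))
    (div_nonneg (sub_nonneg.2 hr.2) d.le) (div_nonneg (sub_nonneg.2 hr.1) d.le)
    (by field_simp; ring)
  simp only [smul_eq_mul] at e
  rw [show (x - r) / (x - y) * y + (r - y) / (x - y) * x = r by field_simp; ring] at e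
  refine (mul_le_mul_of_nonneg_left e d.le).trans_eq ?_
  field_simp

lemma ex_root {I b p : ℝ} (hI : 0 ≤ I) (hb : 0 < b) (hp : 0 < p) : ∃ X, 0 ≤ X ∧ I = X ^ p * b :=
  ⟨(I / b) ^ p⁻¹, by positivity, by
    rw [Real.rpow_inv_rpow (by positivity) hp.ne']; field_simp⟩

theorem core {T B l J : α → ℝ} {p a b1 bp bq : ℝ} (hp : 1 ≤ p) (ha : 0 ≤ a) (h1 : 0 < b1)
    (h2 : 0 < bp) (h3 : 0 ≤ bq) (hT : Bd ν T) (hB : Bd ν B) (hl : Bd ν l) (hJ : Integrable J ν)
    (bT : ∀ X, 0 ≤ X → ∫ y, T y ^ p ∂ν ≤ X ^ p * bp → ∫ y, T y ^ (p + 1) ∂ν ≤ X ^ (p + 1) * bq)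
    (bl : ∀ A, 0 ≤ A → ∫ y, l y ∂ν ≤ A * b1 →
      ∫ y, l y ^ p ∂ν ≤ A ^ p * bp ∧ ∫ y, l y ^ (p + 1) ∂ν ≤ A ^ (p + 1) * bq)
    (e : ∀ᵐ y ∂ν, T y = B y + a * l y ∧ a * ((p + 1) * J y) = T y ^ (p + 1) - B y ^ (p + 1) ∧
      (a = 0 → J y = l y * T y ^ p)) :
    2 * (b1 * bp) * ∫ y, J y ∂ν ≤ bq * (∫ y, l y ∂ν) * (∫ y, T y ^ p ∂ν + ∫ y, B y ^ p ∂ν) := by
  have p0 : 0 < p := by linarith
  have q0 : 0 < p + 1 := by linarith
  obtain ⟨X, X0, eX⟩ := ex_root (integral_nonneg_of_ae (hT.pow p0.le).nn) h2 p0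
  obtain ⟨Y, Y0, eY⟩ := ex_root (integral_nonneg_of_ae (hB.pow p0.le).nn) h2 p0
  obtain ⟨A, A0, eA⟩ := ex_root (integral_nonneg_of_ae hl.nn) h1 one_pos
  rw [Real.rpow_one] at eA
  obtain ⟨l1, l2⟩ := bl A A0 eA.le
  have t1 := bT X X0 eX.le
  suffices h : 2 * ∫ y, J y ∂ν ≤ A * (X ^ p + Y ^ p) * bq by
    rw [eX, eY, eA]
    nlinarith [mul_le_mul_of_nonneg_left h (mul_pos h1 h2).le]
  by_cases c : ∫ y, B y ^ (p + 1) ∂ν ≤ Y ^ (p + 1) * bq
  · have u1 := hold p0 hl hT A0 X0 h3 l2 t1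
    have u2 := hold p0 hl hB A0 Y0 h3 l2 c
    have i1 := (hl.mul (hT.pow p0.le)).int
    have i2 := (hl.mul (hB.pow p0.le)).int
    have : ∫ y, 2 * J y ∂ν ≤ ∫ y, (l y * T y ^ p + l y * B y ^ p) ∂ν := by
      refine integral_mono_ae (hJ.const_mul _) (i1.add i2)
        ((e.and (hB.nn.and hl.nn)).mono fun y ⟨⟨e1, e2, e3⟩, n1, n2⟩ => ?_)
      rcases ha.eq_or_lt with rfl | a0
      · simp only [zero_mul, add_zero] at e1
        simp only [e3 rfl, e1]; linarith
      · have := hh1 (x := T y) hp n1 (by rw [e1]; nlinarith)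
        rw [← e2, show T y - B y = a * l y by rw [e1]; ring] at this
        refine le_of_mul_le_mul_left ?_ (mul_pos a0 q0)
        linarith
    rw [integral_const_mul, integral_add i1 i2] at this
    linarith
  · rcases ha.eq_or_lt with rfl | a0
    · have s : ∀ r : ℝ, ∫ y, B y ^ r ∂ν = ∫ y, T y ^ r ∂ν := fun r =>
        integral_congr_ae (e.mono fun y h => by simp [h.1])
      rw [s] at c eY
      exact absurd (bT Y Y0 eY.le) c
    have m := mink hp hl hB A0 Y0 h2.le a0 l1 eY.le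
    rw [integral_congr_ae (g := fun y => T y ^ p) (e.mono fun y h => by simp only [h.1]), eX] at m
    have m2 : X ≤ Y + a * A := (Real.rpow_le_rpow_iff X0 (by positivity) p0).1
      (le_of_mul_le_mul_right m h2)
    have j : a * ((p + 1) * ∫ y, J y ∂ν) = ∫ y, T y ^ (p + 1) ∂ν - ∫ y, B y ^ (p + 1) ∂ν := by
      rw [← integral_sub (hT.pow q0.le).int (hB.pow q0.le).int, ← integral_const_mul,
        ← integral_const_mul]
      exact integral_congr_ae (e.mono fun y h => h.2.1)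
    have s0 : 0 ≤ Y ^ p + X ^ p := by positivity
    have k : X ^ (p + 1) - Y ^ (p + 1) ≤ (p + 1) * (a * A * (Y ^ p + X ^ p) / 2) := by
      rcases le_total Y X with o | o
      · refine (hh1 hp Y0 o).trans ?_
        gcongr; linarith
      · exact (sub_nonpos.2 (Real.rpow_le_rpow X0 o q0.le)).trans (by positivity)
    refine le_of_mul_le_mul_left ?_ (mul_pos a0 q0)
    nlinarith [mul_le_mul_of_nonneg_right k h3, not_le.1 c]

end Pool.Agent.MP_a32717_an.Aff
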