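import Pool.Agent.MP_a32717_an.Aff.Ber
import Pool.Agent.MP_a32717_an.Sym.Lower

/-! The lower bound: thin plates over a cone. -/

open MeasureTheory Set Metric Module Filter Topology
open scoped ENNReal NNReal RealInnerProductSpace Pointwise

noncomputable section
namespace Pool.Agent.MP_a32717_an.Aff
open Pool.Agent.MP_a32717_an.Sym

variable {E : Type*} [NormedAddCommGroup E] [InnerProductSpace ℝ E] [FiniteDimensional ℝ E]
  [MeasurableSpace E] [BorelSpace E]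

theorem lens2 (u : E) (hu : ‖u‖ = 1) {m : ℕ} (hm : finrank ℝ E = m + 1) {c : ℝ} (hc : 0 ≤ c)
    {h g : (ℝ ∙ u)ᗮ → ℝ} {L : ℝ≥0} {z : (ℝ ∙ u)ᗮ} (hL : LipschitzWith L h)
    (hcv : ConcaveOn ℝ univ h) (h0 : 0 < h z) (hb : Bornology.IsBounded {y | 0 < h y})
    (gc : Continuous g) (g0 : ∀ y, 0 ≤ g y)
    (hlt : c * (∫ y in {y | 0 < h y}, g y ∂μH[m]) * (∫ y in {y | 0 < h y}, h y ∂μH[m]) <
      μH[m].real {y | 0 < h y} * ∫ y in {y | 0 < h y}, g y * h y ∂μH[m]) :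
    ∃ Ω : Set E, IsOpen Ω ∧ Bornology.IsBounded Ω ∧ Convex ℝ Ω ∧ Ω.Nonempty ∧
      (∀ x ∈ Ω, 0 < h (prj u x)) ∧
      c * ⨍ x in frontier Ω, g (prj u x) ∂μH[m] < ⨍ x in Ω, g (prj u x) := by
  have hu0 : u ≠ 0 := by rintro rfl; simp at hu
  have := haar_perp u hu0 hm
  set μ : Measure (ℝ ∙ u)ᗮ := μH[m] with hμ
  set H : Set (ℝ ∙ u)ᗮ := {y | 0 < h y} with hH
  have hc' := hL.continuous
  have Ho : IsOpen H := isOpen_lt continuous_const hc'
  have Hc : Convex ℝ H := by simpa using hcv.convex_gt 0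
  have Hpos : 0 < μ.real H :=
    ENNReal.toReal_pos (Ho.measure_pos μ ⟨z, h0⟩).ne' hb.measure_lt_top.ne
  have Ih : 0 < ∫ y in H, h y ∂μ := by
    rw [setIntegral_pos_iff_support_of_nonneg_ae
      (ae_restrict_of_forall_mem Ho.measurableSet fun y hy => le_of_lt hy)
      (integrableOn_bdd μ hc' hb)]
    exact (hc'.isOpen_support.inter Ho).measure_pos μ ⟨z, h0.ne', h0⟩
  have Ig : 0 ≤ ∫ y in H, g y ∂μ := integral_nonneg g0
  obtain ⟨η, hη, hηlt⟩ : ∃ η : ℝ≥0, 0 < η ∧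
      (1 + η * L : ℝ) ^ m * (c * (∫ y in H, g y ∂μ) * (∫ y in H, h y ∂μ)) <
        μ.real H * ∫ y in H, g y * h y ∂μ := by
    have ht : Tendsto (fun η : ℝ≥0 => (1 + η * L : ℝ) ^ m *
        (c * (∫ y in H, g y ∂μ) * (∫ y in H, h y ∂μ))) (𝓝[>] 0)
        (𝓝 (c * (∫ y in H, g y ∂μ) * (∫ y in H, h y ∂μ))) := by
      refine tendsto_nhdsWithin_of_tendsto_nhds (Continuous.tendsto' (by fun_prop) _ _ (by simp))
    exact ((ht.eventually (gt_mem_nhds hlt)).and self_mem_nhdsWithin).exists.imp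
      fun η hη => ⟨hη.2, hη.1⟩
  have hη' : (0 : ℝ) < η := hη
  have hL1 : LipschitzWith (η * L) fun y => (η : ℝ) * h y := by
    simpa [Function.comp_def] using (lipschitzWith_smul (η : ℝ)).comp hL
  have hL2 : LipschitzWith (η * L) fun y => -((η : ℝ) * h y) := hL1.neg
  have hH' : {y | 0 < (η : ℝ) * h y} = H := by
    ext y; simp only [hH, mem_ofPred_eq, mul_pos_iff_of_pos_left hη']
  set Ω : Set E := {x | |⟪u, x⟫| < η * h (prj u x)} with hΩ
  have c1 : Continuous fun x : E => |⟪u, x⟫| := by fun_prop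
  have c2 : Continuous fun x : E => (η : ℝ) * h (prj u x) := by fun_prop
  have Ωo : IsOpen Ω := isOpen_lt c1 c2
  have hin : ∀ (y : (ℝ ∙ u)ᗮ) (t : ℝ), ⟪u, (y : E) + t • u⟫ = t := fun y t => by
    simp [inner_add_right, inner_smul_right, inner_perp, hu]
  have hpr : ∀ (y : (ℝ ∙ u)ᗮ) (t : ℝ), prj u ((y : E) + t • u) = y := fun y t =>
    prj_dec u hu0 (y, t)
  have hpre : dec u hu0 ⁻¹' Ω = {q | |q.2| < η * h q.1} := by
    ext q; simp only [hΩ, mem_preimage, mem_ofPred_eq, dec_apply, hin, hpr]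
  have Ωb : Bornology.IsBounded Ω := by
    rw [← image_preimage_eq Ω (dec u hu0).surjective, hpre]
    exact (dec u hu0).lipschitz.isBounded_image (slab_bdd hL1 (hH' ▸ hb))
  refine ⟨Ω, Ωo, Ωb, ?_, ⟨z, by simpa [hΩ, inner_perp, prj_val] using mul_pos hη' h0⟩,
    fun x hx => (mul_pos_iff_of_pos_left hη').1 ((abs_nonneg _).trans_lt hx.out), ?_⟩
  · have a1 : ConvexOn ℝ univ fun x : E => |⟪u, x⟫| :=
      (convexOn_univ_norm (E := ℝ)).comp_linearMap (innerSL ℝ u : E →ₗ[ℝ] ℝ)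
    have a2 : ConcaveOn ℝ univ fun x : E => (η : ℝ) * h (prj u x) :=
      (hcv.comp_linearMap (prj u : E →ₗ[ℝ] (ℝ ∙ u)ᗮ)).smul hη'.le
    simpa [hΩ] using (a1.sub a2).convex_lt 0
  obtain ⟨a, ha, -, hI, -⟩ := haar_transport (dec u hu0) (μ.prod volume) (volume : Measure E)
  have hap : (0 : ℝ) < a := by positivity
  have v1 : ∫ x in Ω, g (prj u x) = a * (2 * η * ∫ y in H, g y * h y ∂μ) := by
    rw [hI, hpre]
    simp only [prj_dec]
    rw [slab_integral μ hL1 gc (hH' ▸ hb), hH',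
      ← integral_const_mul (2 * (η : ℝ))]
    congr 1
    exact integral_congr_ae (.of_forall fun y => by ring)
  have v2 : volume.real Ω = a * (2 * η * ∫ y in H, h y ∂μ) := by
    have := hI Ω fun _ => 1
    rw [setIntegral_const, smul_eq_mul, mul_one, hpre] at this
    rw [this, slab_integral μ hL1 continuous_const (hH' ▸ hb), hH',
      ← integral_const_mul (2 * (η : ℝ))]
    congr 1
    exact integral_congr_ae (.of_forall fun y => by ring)
  have hcl : closure H =ᵐ[μ] H := closure_ae_eq_of_null_frontier (Hc.addHaar_frontier μ)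
  have fsub : frontier Ω ⊆ (fun y : (ℝ ∙ u)ᗮ => (y : E) + (η * h y) • u) '' closure H ∪
      (fun y : (ℝ ∙ u)ᗮ => (y : E) + (-(η * h y)) • u) '' closure H := by
    intro x hx
    have e1 : |⟪u, x⟫| = η * h (prj u x) := frontier_lt_subset_eq c1 c2 hx
    have e2 : prj u x ∈ closure H := by
      refine map_mem_closure (prj u).continuous (frontier_subset_closure hx) fun z hz => ?_
      rw [← hH']; exact (abs_nonneg _).trans_lt hz.out
    have e3 : x = (prj u x : E) + ⟪u, x⟫ • u := by simp [prj_coe, hu]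
    rcases le_total 0 ⟪u, x⟫ with p | p
    · exact Or.inl ⟨_, e2, by beta_reduce; rw [← e1, abs_of_nonneg p]; exact e3.symm⟩
    · exact Or.inr ⟨_, e2, by beta_reduce; rw [← e1, abs_of_nonpos p, neg_neg]; exact e3.symm⟩
  have up : ∀ F : (ℝ ∙ u)ᗮ → ℝ≥0∞, Measurable F → ∫⁻ x in frontier Ω, F (prj u x) ∂μH[m] ≤
      2 * (((1 + η * L : ℝ≥0) : ℝ≥0∞) ^ m * ∫⁻ y in H, F y ∂μ) := fun F hF => by
    refine (lintegral_mono_set fsub).trans ((lintegral_union_le _ _ _).trans ?_)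
    rw [two_mul, ← setLIntegral_congr hcl]
    exact add_le_add (graph_le u hu m hL1 _ F hF) (graph_le u hu m hL2 _ F hF)
  have fin : μH[m] (frontier Ω) ≠ ∞ := by
    have := up (fun _ => 1) measurable_const
    simp only [setLIntegral_one] at this
    exact ne_top_of_le_ne_top (ENNReal.mul_ne_top (by simp)
      (ENNReal.mul_ne_top (by finiteness) hb.measure_lt_top.ne)) this
  have mem : ∀ y ∈ H, ∀ s : ℝ, |s| = 1 → (y : E) + (s * (η * h y)) • u ∈ frontier Ω := by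
    intro y hy s hs
    have hp : 0 < η * h y := mul_pos hη' hy
    rw [Ωo.frontier_eq]
    refine ⟨?_, by simp [hΩ, hin, hpr, abs_mul, hs, abs_of_pos hp]⟩
    have ht : Tendsto (fun r : ℝ => (y : E) + (r * (s * (η * h y))) • u) (𝓝[<] 1)
        (𝓝 ((y : E) + (s * (η * h y)) • u)) :=
      tendsto_nhdsWithin_of_tendsto_nhds (Continuous.tendsto' (by fun_prop) _ _ (by simp))
    refine mem_closure_of_tendsto ht ?_
    filter_upwards [Ioo_mem_nhdsLT (zero_lt_one' ℝ)] with r hr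
    simp only [hΩ, mem_ofPred_eq, hin, hpr, abs_mul, hs, abs_of_pos hr.1, abs_of_pos hη',
      abs_of_pos hy.out, one_mul]
    nlinarith [hr.2]
  have low : 2 * μ H ≤ μH[m] (frontier Ω) := by
    have half : ∀ s : ℝ, |s| = 1 → μ H ≤ μH[m] (frontier Ω ∩ {x | 0 < s * ⟪u, x⟫}) := by
      intro s hs
      refine le_trans (measure_mono fun y hy => ?_) (prj_measure_le u m _)
      refine ⟨_, ⟨mem y hy s hs, ?_⟩, hpr _ _⟩
      have : s * s = 1 := by rw [← abs_mul_abs_self, hs, one_mul]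
      rw [mem_ofPred_eq, hin, ← mul_assoc, this, one_mul]
      exact mul_pos hη' hy
    have ms : MeasurableSet {x : E | 0 < 1 * ⟪u, x⟫} :=
      (isOpen_lt continuous_const (by fun_prop)).measurableSet
    rw [two_mul, ← measure_inter_add_sdiff (frontier Ω) ms]
    refine add_le_add (half 1 (by simp)) ((half (-1) (by simp)).trans (measure_mono ?_))
    rintro x ⟨a, b⟩
    simp only [mem_ofPred_eq] at b
    exact ⟨a, fun q => by simp only [mem_ofPred_eq] at q; linarith⟩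
  have low' : 2 * μ.real H ≤ μH[m].real (frontier Ω) := by
    have := ENNReal.toReal_mono fin low
    rwa [ENNReal.toReal_mul, ENNReal.toReal_ofNat] at this
  have up' : ∫ x in frontier Ω, g (prj u x) ∂μH[m] ≤
      2 * ((1 + η * L : ℝ) ^ m * ∫ y in H, g y ∂μ) := by
    have gi := integrableOn_bdd μ gc hb
    have := up (fun y => ENNReal.ofReal (g y)) (by fun_prop)
    rw [← ofReal_integral_eq_lintegral_ofReal gi (.of_forall g0)] at this
    rw [integral_eq_lintegral_of_nonneg_ae (.of_forall fun x => g0 _)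
      (Continuous.aestronglyMeasurable (by fun_prop))]
    refine (ENNReal.toReal_mono (by finiteness) this).trans_eq ?_
    rw [ENNReal.toReal_mul, ENNReal.toReal_mul, ENNReal.toReal_pow, ENNReal.coe_toReal,
      ENNReal.toReal_ofReal Ig]
    simp
  rw [setAverage_eq, setAverage_eq, v1, v2, smul_eq_mul, smul_eq_mul]
  have e1 : (μH[m].real (frontier Ω))⁻¹ * ∫ x in frontier Ω, g (prj u x) ∂μH[m] ≤
      (2 * μ.real H)⁻¹ * (2 * ((1 + η * L : ℝ) ^ m * ∫ y in H, g y ∂μ)) := by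
    have : 0 ≤ ∫ x in frontier Ω, g (prj u x) ∂μH[m] := integral_nonneg fun x => g0 _
    gcongr
  refine (mul_le_mul_of_nonneg_left e1 hc).trans_lt ?_
  have e2 : c * ((2 * μ.real H)⁻¹ * (2 * ((1 + η * L : ℝ) ^ m * ∫ y in H, g y ∂μ))) =
      (1 + η * L : ℝ) ^ m * (c * (∫ y in H, g y ∂μ) * (∫ y in H, h y ∂μ)) /
        (μ.real H * ∫ y in H, h y ∂μ) := by field_simp
  have e3 : (a * (2 * η * ∫ y in H, h y ∂μ))⁻¹ * (a * (2 * η * ∫ y in H, g y * h y ∂μ)) =
      (μ.real H * ∫ y in H, g y * h y ∂μ) / (μ.real H * ∫ y in H, h y ∂μ) := by field_simp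
  rw [e2, e3]
  gcongr

/-- the two moments of `ψ` on a cone -/
def Mom (m : ℕ) (ψ : ℝ → ℝ) (A B : ℝ) : Prop :=
  ∀ (ν : Measure ℝ) [IsFiniteMeasure ν], Bd ν id → (∀ q : ℝ, 1 ≤ q → ∫ t, t ^ q ∂ν =
    ν.real univ * bt m q) → ∫ t, ψ t ∂ν = ν.real univ * A ∧ ∫ t, ψ t * t ∂ν = ν.real univ * B

theorem plate (μ : Measure E) [μ.IsAddHaarMeasure] {m : ℕ} (hm : finrank ℝ E = m) (m0 : m ≠ 0)
    {w : E} (hw : ‖w‖ = 1) {ψ : ℝ → ℝ} (cψ : Continuous ψ) (ψ0 : ∀ s, 0 ≤ ψ s) {A B c : ℝ}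
    (hψ : Mom m ψ A B) (hc0 : 0 ≤ c) (hc : c * (bt m 1 * A) < B) :
    ∃ (h : E → ℝ) (L : ℝ≥0), LipschitzWith L h ∧ ConcaveOn ℝ univ h ∧ 0 < h ((1 / 2 : ℝ) • w) ∧
      Bornology.IsBounded {y | 0 < h y} ∧ (∀ y, h y ≤ 1 - ⟪w, y⟫) ∧
      c * (∫ y in {y | 0 < h y}, ψ (1 - ⟪w, y⟫) ∂μ) * (∫ y in {y | 0 < h y}, h y ∂μ) <
        μ.real {y | 0 < h y} * ∫ y in {y | 0 < h y}, ψ (1 - ⟪w, y⟫) * h y ∂μ := by
  set H : Set E := {y | ⟪w, y⟫ < 1 ∧ ‖y‖ < 2 * ⟪w, y⟫} with hH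
  set h : ℝ → E → ℝ := fun L y => min (1 - ⟪w, y⟫) (L * (2 * ⟪w, y⟫ - ‖y‖)) with hh
  have hpos : ∀ L, 0 < L → {y | 0 < h L y} = H := fun L hL => by
    ext y
    simp only [hh, hH, mem_ofPred_eq, lt_min_iff, mul_pos_iff_of_pos_left hL, sub_pos]
  have Ho : IsOpen H := by
    rw [hH, ofPred_and]
    exact (isOpen_lt (by fun_prop) (by fun_prop)).inter (isOpen_lt (by fun_prop) (by fun_prop))
  have Hb : Bornology.IsBounded H := (isBounded_ball (x := (0 : E)) (r := 2)).subset fun y hy => by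
    rw [mem_ball_zero_iff]; linarith [hy.1, hy.2]
  have Hz : (1 / 2 : ℝ) • w ∈ H := by
    simp only [hH, mem_ofPred_eq, inner_smul_right, real_inner_self_eq_norm_sq, norm_smul, hw]
    norm_num
  have Hf := Hb.measure_lt_top (μ := μ).ne
  have v0 : 0 < μ.real H := ENNReal.toReal_pos (Ho.measure_pos μ ⟨_, Hz⟩).ne' Hf
  have nt : ∀ y ∈ H, 0 ≤ 1 - ⟪w, y⟫ ∧ 1 - ⟪w, y⟫ ≤ 1 := fun y hy =>
    ⟨by linarith [hy.1], by linarith [hy.2, norm_nonneg y]⟩
  have mom : ∀ q : ℝ, 1 ≤ q → ∫ y in H, (1 - ⟪w, y⟫) ^ q ∂μ = μ.real H * bt m q := fun q hq => by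
    have b := bd_of μ Ho (u := fun y => 1 - ⟪w, y⟫) (by fun_prop) nt
    have c1 := cone m0 hq v0.le one_pos
    rw [Real.one_rpow, one_mul] at c1
    rw [← ENNReal.ofReal_eq_ofReal_iff (integral_nonneg_of_ae (b.pow (by linarith)).nn)
      (mul_pos v0 (bt_pos m hq)).le, cake μ Ho.measurableSet Hf b (by linarith), ← c1]
    congr 1
    refine setLIntegral_congr_fun measurableSet_Ioi fun s hs => ?_
    have s0 : 0 < s := hs
    congr 1
    rw [div_one]
    rcases lt_or_ge s 1 with o | o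
    · have d : 0 < 1 - s := sub_pos.2 o
      have : {y | s < 1 - ⟪w, y⟫} ∩ H = (1 - s) • H := by
        ext y
        rw [mem_smul_set_iff_inv_smul_mem₀ d.ne']
        simp only [hH, mem_inter_iff, mem_ofPred_eq, inner_smul_right, norm_smul,
          Real.norm_of_nonneg (inv_pos.2 d).le, inv_mul_lt_iff₀ d, mul_left_comm (2 : ℝ),
          mul_inv_cancel_left₀ d.ne']
        constructor
        · rintro ⟨a, -, b⟩; exact ⟨by linarith, b⟩
        · rintro ⟨a, b⟩; exact ⟨by linarith, by linarith, b⟩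
      rw [this, Measure.addHaar_smul_of_nonneg μ d.le, max_eq_left d.le, hm, mul_comm,
        ENNReal.ofReal_mul v0.le, Measure.real, ENNReal.ofReal_toReal Hf]
    · have : {y | s < 1 - ⟪w, y⟫} ∩ H = ∅ := eq_empty_of_forall_notMem fun y hy => by
        linarith [hy.1.out, (nt y hy.2).2]
      rw [this, max_eq_right (by linarith)]
      simp [m0]
  have gc : Continuous fun y : E => ψ (1 - ⟪w, y⟫) := by fun_prop
  have g0 : ∀ y : E, 0 ≤ ψ (1 - ⟪w, y⟫) := fun y => ψ0 _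
  have gi := integrableOn_bdd μ gc Hb
  have hc' : ∀ L, Continuous (h L) := fun L => by fun_prop
  have : IsFiniteMeasure (μ.restrict H) := isFiniteMeasure_restrict.2 Hf
  have mt : Measurable fun y : E => 1 - ⟪w, y⟫ := by fun_prop
  have mu : ((μ.restrict H).map fun y : E => 1 - ⟪w, y⟫).real univ = μ.real H := by
    rw [map_measureReal_apply mt MeasurableSet.univ]; simp
  obtain ⟨Ig, Ig'⟩ := hψ ((μ.restrict H).map fun y : E => 1 - ⟪w, y⟫)
    ⟨aestronglyMeasurable_id, 1, (ae_map_iff mt.aemeasurable measurableSet_Icc).2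
      (ae_restrict_of_forall_mem Ho.measurableSet nt)⟩ fun q hq => by
      rw [integral_map mt.aemeasurable
        (Real.continuous_rpow_const (by linarith)).aestronglyMeasurable, mu, mom q hq]
  rw [integral_map mt.aemeasurable (Continuous.aestronglyMeasurable (by fun_prop)), mu] at Ig Ig'
  have Ih : ∀ L, ∫ y in H, h L y ∂μ ≤ μ.real H * bt m 1 := fun L => by
    rw [← mom 1 le_rfl]
    simp only [Real.rpow_one]
    exact setIntegral_mono_on (integrableOn_bdd μ (hc' L) Hb) (integrableOn_bdd μ (by fun_prop) Hb)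
      Ho.measurableSet fun y _ => min_le_left _ _
  have hlim : Tendsto (fun j : ℕ => ∫ y in H, ψ (1 - ⟪w, y⟫) * h (j + 1) y ∂μ) atTop
      (𝓝 (μ.real H * B)) := by
    rw [← Ig']
    refine tendsto_integral_of_dominated_convergence _
      (fun j => (gc.mul (hc' _)).aestronglyMeasurable) gi (fun j => ?_) ?_
    · refine ae_restrict_of_forall_mem Ho.measurableSet fun y hy => ?_
      have h1 : 0 < h (j + 1) y := ((hpos (j + 1) (by positivity)).symm.subset hy :)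
      rw [Real.norm_of_nonneg (mul_nonneg (g0 y) h1.le)]
      exact mul_le_of_le_one_right (g0 y) ((min_le_left _ _).trans (nt y hy).2)
    · refine ae_restrict_of_forall_mem Ho.measurableSet fun y hy => ?_
      have h1 : 0 < 2 * ⟪w, y⟫ - ‖y‖ := sub_pos.2 hy.2
      obtain ⟨N, hN⟩ := exists_nat_gt (1 / (2 * ⟪w, y⟫ - ‖y‖))
      rw [div_lt_iff₀ h1] at hN
      refine tendsto_const_nhds.congr' ((eventually_ge_atTop N).mono fun j hj => ?_)
      have hj' : (N : ℝ) ≤ j := by exact_mod_cast hj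
      simp only [hh]
      rw [min_eq_left (by nlinarith [(nt y hy).2])]
  obtain ⟨j, hj⟩ := (hlim.eventually (lt_mem_nhds (mul_lt_mul_of_pos_left hc v0))).exists
  have hj0 : (0 : ℝ) < j + 1 := by positivity
  have l1 := (innerSL ℝ w).lipschitz
  have c1 : ConcaveOn ℝ univ fun y : E => ⟪w, y⟫ := (innerSL ℝ w : E →ₗ[ℝ] ℝ).concaveOn convex_univ
  have c2 : ConvexOn ℝ univ fun y : E => ⟪w, y⟫ := (innerSL ℝ w : E →ₗ[ℝ] ℝ).convexOn convex_univ
  refine ⟨h (j + 1), _, LipschitzWith.min ((LipschitzWith.const (1 : ℝ)).sub l1)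
    ((lipschitzWith_smul ((j : ℝ) + 1)).comp (((lipschitzWith_smul (2 : ℝ)).comp l1).sub
      lipschitzWith_one_norm)), ?_, ((hpos _ hj0).symm.subset Hz :), by rwa [hpos _ hj0],
    fun y => min_le_left _ _, ?_⟩
  · exact ConcaveOn.inf ((concaveOn_const 1 convex_univ).sub c2)
      (((c1.smul zero_le_two).sub convexOn_univ_norm).smul hj0.le)
  · rw [hpos _ hj0]
    have := mul_le_mul_of_nonneg_left (Ih (j + 1)) (mul_nonneg hc0 (integral_nonneg (μ := μ.restrict H) g0))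
    rw [Ig] at this ⊢
    nlinarith [mul_lt_mul_of_pos_left hj v0]

theorem lower_gen {m : ℕ} (hm : finrank ℝ E = m + 1) (m0 : m ≠ 0) {ψ : ℝ → ℝ} (cψ : Continuous ψ)
    (ψ0 : ∀ s, 0 ≤ ψ s) {A B c : ℝ} (hψ : Mom m ψ A B) (hc0 : 0 ≤ c) (hc : c * (bt m 1 * A) < B) :
    ∃ (Ω : Set E) (φ : E →ᵃ[ℝ] ℝ), IsOpen Ω ∧ Bornology.IsBounded Ω ∧ Convex ℝ Ω ∧ Ω.Nonempty ∧
      (∀ x ∈ closure Ω, 0 ≤ φ x) ∧ c * ⨍ x in frontier Ω, ψ (φ x) ∂μH[m] < ⨍ x in Ω, ψ (φ x) := by
  have : Nontrivial E := Module.nontrivial_of_finrank_pos (R := ℝ) (by omega)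
  obtain ⟨u, hu⟩ := exists_norm_eq E zero_le_one
  have hu0 : u ≠ 0 := by rintro rfl; simp at hu
  have := haar_perp u hu0 hm
  have hk := finrank_perp u hu0 hm
  have : Nontrivial (ℝ ∙ u)ᗮ := Module.nontrivial_of_finrank_pos (R := ℝ) (by omega)
  obtain ⟨w, hw⟩ := exists_norm_eq (ℝ ∙ u)ᗮ zero_le_one
  obtain ⟨h, L, a1, a2, a3, a4, a5, a6⟩ :=
    plate (μH[m] : Measure (ℝ ∙ u)ᗮ) hk m0 hw cψ ψ0 hψ hc0 hc
  obtain ⟨Ω, b1, b2, b3, b4, b5, b6⟩ := lens2 u hu hm hc0 (g := fun y => ψ (1 - ⟪w, y⟫)) a1 a2 a3 a4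
    (by fun_prop) (fun y => ψ0 _) a6
  exact ⟨Ω, AffineMap.const ℝ E (1 : ℝ) -
    (((innerSL ℝ w).comp (prj u) : E →L[ℝ] ℝ) : E →ₗ[ℝ] ℝ).toAffineMap, b1, b2, b3, b4,
    fun x hx => closure_minimal (t := {x | 0 ≤ 1 - ⟪w, prj u x⟫})
      (fun x hx => (b5 x hx).le.trans (a5 _)) (isClosed_le continuous_const (by fun_prop)) hx, b6⟩

theorem lower {m : ℕ} (hm : finrank ℝ E = m + 1) (m0 : m ≠ 0) {p c : ℝ} (hp : 1 ≤ p) (hc0 : 0 ≤ c)
    (hc : c * (bt m 1 * bt m p) < bt m (p + 1)) :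
    ∃ (Ω : Set E) (φ : E →ᵃ[ℝ] ℝ), IsOpen Ω ∧ Bornology.IsBounded Ω ∧ Convex ℝ Ω ∧ Ω.Nonempty ∧
      (∀ x ∈ Ω, 0 ≤ φ x) ∧ c * ⨍ x in frontier Ω, φ x ^ p ∂μH[m] < ⨍ x in Ω, φ x ^ p := by
  obtain ⟨Ω, φ, b1, b2, b3, b4, n, b6⟩ := lower_gen hm m0 (ψ := fun s => |s| ^ p)
    ((Real.continuous_rpow_const (by linarith)).comp continuous_abs) (fun s => by positivity)
    (fun ν _ b h => ⟨by
      rw [← h p hp]
      exact integral_congr_ae (b.nn.mono fun t (ht : 0 ≤ t) => by simp only [abs_of_nonneg ht]), by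
      rw [← h (p + 1) (by linarith)]
      exact integral_congr_ae (b.nn.mono fun t (ht : 0 ≤ t) => by
        simp only [abs_of_nonneg ht, Real.rpow_add_one' ht (by linarith : p + 1 ≠ 0)])⟩) hc0 hc
  refine ⟨Ω, φ, b1, b2, b3, b4, fun x hx => n x (subset_closure hx), ?_⟩
  rwa [setAverage_congr_fun (g := fun x => φ x ^ p) b1.measurableSet
      (ae_of_all _ fun x hx => by rw [abs_of_nonneg (n x (subset_closure hx))]),
    setAverage_congr_fun (g := fun x => φ x ^ p) isClosed_frontier.measurableSet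
      (ae_of_all _ fun x hx => by rw [abs_of_nonneg (n x (frontier_subset_closure hx))])] at b6

end Pool.Agent.MP_a32717_an.Aff
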