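import Pool.Agent.MP_a32717_an.Aff.Up
import Pool.Agent.MP_a32717_an.Aff.Low

/-! Affine functions in coordinates, and the final form. -/

open MeasureTheory Set

namespace Pool.Agent.MP_a32717_an.Aff

variable {n : ℕ}

lemma aff_eq (φ : EuclideanSpace ℝ (Fin n) →ᵃ[ℝ] ℝ) :
    ∃ (a : Fin n → ℝ) (b : ℝ), ∀ x, φ x = ∑ i, a i * x i + b := by
  refine ⟨fun i => φ.linear (EuclideanSpace.single i 1), φ 0, fun x => ?_⟩
  have e := φ.map_vadd 0 x
  rw [vadd_eq_add, add_zero, vadd_eq_add] at e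
  rw [e]
  congr 1
  conv_lhs => rw [← (EuclideanSpace.basisFun (Fin n) ℝ).sum_repr x, map_sum]
  simp [mul_comm]

lemma eq_aff (a : Fin n → ℝ) (b : ℝ) :
    ∃ φ : EuclideanSpace ℝ (Fin n) →ᵃ[ℝ] ℝ, ∀ x, ∑ i, a i * x i + b = φ x :=
  ⟨(∑ i, a i • (EuclideanSpace.proj i : EuclideanSpace ℝ (Fin n) →L[ℝ] ℝ) :
    EuclideanSpace ℝ (Fin n) →L[ℝ] ℝ).toLinearMap.toAffineMap + AffineMap.const ℝ _ b,
    fun x => by simp⟩

theorem least (hn : 2 ≤ n) {p : ℝ} (hp : 1 ≤ p) :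
    IsLeast {c : ℝ | ∀ (Ω : Set (EuclideanSpace ℝ (Fin n))) (a : Fin n → ℝ) (b : ℝ),
      IsOpen Ω → Bornology.IsBounded Ω → Convex ℝ Ω → Ω.Nonempty →
      (∀ x ∈ Ω, 0 ≤ ∑ i, a i * x i + b) →
      ⨍ x in Ω, (∑ i, a i * x i + b) ^ p ∂volume ≤
        c * ⨍ x in frontier Ω, (∑ i, a i * x i + b) ^ p ∂(Measure.hausdorffMeasure ((n : ℝ) - 1))}
      (n * (p + 1) / (n + p)) := by
  obtain ⟨m, rfl⟩ : ∃ m, n = m + 1 := ⟨n - 1, by omega⟩
  have m0 : m ≠ 0 := by omega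
  have b := mul_pos (bt_pos m le_rfl) (bt_pos m hp)
  have e : ((m + 1 : ℕ) : ℝ) * (p + 1) / ((m + 1 : ℕ) + p) = bt m (p + 1) / (bt m 1 * bt m p) := by
    rw [div_eq_div_iff (by positivity) b.ne', bt_one]
    push_cast
    field_simp
    linear_combination -bt_succ m hp
  rw [e, show ((m + 1 : ℕ) : ℝ) - 1 = (m : ℝ) by push_cast; ring]
  refine ⟨fun Ω a b ho hb hc hne h0 => ?_, fun c hc => ?_⟩
  · obtain ⟨φ, hφ⟩ := eq_aff a b
    simp only [hφ] at h0 ⊢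
    exact upper (by simp) m0 ho hb hc hne φ h0 hp
  by_contra h
  have h1 : max c 0 * (bt m 1 * bt m p) < bt m (p + 1) :=
    (lt_div_iff₀ b).1 (max_lt (not_le.1 h) (div_pos (bt_pos m (by linarith)) b))
  obtain ⟨Ω, φ, a1, a2, a3, a4, a5, a6⟩ := lower (E := EuclideanSpace ℝ (Fin (m + 1))) (by simp) m0
    hp (le_max_right c 0) h1
  obtain ⟨a, b, hφ⟩ := aff_eq φ
  have k := hc Ω a b a1 a2 a3 a4
  simp only [← hφ] at k
  refine a6.not_ge ((k a5).trans (mul_le_mul_of_nonneg_right (le_max_left _ _) ?_))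
  rw [setAverage_eq]
  exact smul_nonneg (by positivity) (setIntegral_nonneg isClosed_frontier.measurableSet
    fun x hx => Real.rpow_nonneg (closure_minimal (t := {x | 0 ≤ φ x}) a5 (isClosed_le
      continuous_const φ.continuous_of_finiteDimensional) (frontier_subset_closure hx)) _)

end Pool.Agent.MP_a32717_an.Aff
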