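import Pool.Agent.MP_a32717_an.Aff.Alg
import Pool.Agent.MP_a32717_an.Aff.Fin

/-! Convex quadratic polynomials in the plane. -/

open MeasureTheory Set Filter Topology Module
open scoped ENNReal NNReal

noncomputable section
namespace Pool.Agent.MP_a32717_an.Aff
open Pool.Agent.MP_a32717_an.Sym

theorem dir2 {V : Type*} [NormedAddCommGroup V] [NormedSpace ℝ V] [FiniteDimensional ℝ V]
    [MeasurableSpace V] [BorelSpace V] (μ : Measure V) [μ.IsAddHaarMeasure] {K : Set (V × ℝ)}
    (hm : finrank ℝ V = 1) (hK : IsCompact K) (hc : Convex ℝ K) (h0 : 0 ∈ interior K)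
    {φ : V × ℝ → ℝ} (L : V →L[ℝ] ℝ) (a c : ℝ) (hφ : ∀ y t, φ (y, t) = a * t + (L y + c)) {r : ℝ}
    (r0 : 0 < r) (hr : 3 * r ^ 2 = 1) :
    2 * 1 * μ.real (Prod.fst '' K) * ∫ q in K, φ q ^ 2 ∂μ.prod volume ≤
      (1 + r) * (μ.prod volume).real K * (∫ y in interior (Prod.fst '' K), φ (y, top K y) ^ 2 ∂μ +
        ∫ y in interior (Prod.fst '' K), φ (y, bot K y) ^ 2 ∂μ) := by
  have cφ : Continuous φ := by
    rw [show φ = fun q => a * q.2 + (L q.1 + c) from funext fun q => hφ q.1 q.2]; fun_prop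
  have Hc := proj_convex hc
  have tc := (top_concave hK hc).subset interior_subset Hc.interior
  have bc := (bot_convex hK hc).subset interior_subset Hc.interior
  have ae := interior_ae_eq_of_null_frontier (Hc.addHaar_frontier μ)
  obtain ⟨-, j2⟩ := fub μ hK hc (G := fun q => φ q ^ 2) (by fun_prop)
  obtain ⟨-, j3⟩ := fub μ hK hc (G := fun _ => 1) continuous_const
  have Hf : μ (interior (Prod.fst '' K)) ≠ ∞ := ((measure_mono interior_subset).trans_lt
    (hK.image continuous_fst).measure_lt_top).ne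
  have Hn : (interior (Prod.fst '' K)).Nonempty := ⟨0, zero_mem_interior_proj h0⟩
  have tm : ∀ y ∈ interior (Prod.fst '' K), (y, top K y) ∈ K :=
    fun y hy => top_mem hK (interior_subset hy)
  have bm : ∀ y ∈ interior (Prod.fst '' K), (y, bot K y) ∈ K :=
    fun y hy => bot_mem hK (interior_subset hy)
  rw [← measureReal_congr ae]
  have Ho : IsOpen (interior (Prod.fst '' K)) := isOpen_interior
  generalize interior (Prod.fst '' K) = H at *
  obtain ⟨M, hM⟩ := hK.exists_bound_of_continuousOn cφ.continuousOn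
  obtain ⟨R, hR⟩ := hK.exists_bound_of_continuousOn continuous_snd.continuousOn
  have nl : ∀ y ∈ H, 0 ≤ top K y - bot K y ∧ top K y - bot K y ≤ max M (R + R) := fun y hy =>
    ⟨sub_nonneg.2 (bot_le hK (tm y hy)), le_max_of_le_right (by
      linarith [(abs_le.1 (hR _ (tm y hy))).2, (abs_le.1 (hR _ (bm y hy))).1])⟩
  have cl : ConcaveOn ℝ H fun y => top K y - bot K y := tc.sub bc
  have ch : ∀ y, ∫ t in bot K y..top K y, φ (y, t) ^ 2 = (top K y - bot K y) * φ (y, bot K y) ^ 2 +
      a * ((top K y - bot K y) ^ 2 * φ (y, bot K y)) + a ^ 2 / 3 * (top K y - bot K y) ^ 3 :=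
    fun y => by
      simp only [hφ]
      generalize L y + c = s
      rw [intervalIntegral.integral_eq_sub_of_hasDerivAt
        (f := fun t => s ^ 2 * t + a * s * t ^ 2 + a ^ 2 / 3 * t ^ 3) (fun t _ => by
          refine HasDerivAt.congr_deriv ((((hasDerivAt_id t).const_mul _).add
            (((hasDerivAt_id t).pow 2).const_mul _)).add (((hasDerivAt_id t).pow 3).const_mul _)) ?_
          simp only [id]; push_cast; ring) (Continuous.intervalIntegrable (by fun_prop) _ _)]
      ring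
  have cv : ∀ w : V → ℝ, ConcaveOn ℝ H (fun y => a * w y) → ConcaveOn ℝ H fun y => φ (y, w y) :=
    fun w h => by
      simp only [hφ]
      exact h.add (((L : V →ₗ[ℝ] ℝ).concaveOn h.1).add_const c)
  have cx : ∀ w : V → ℝ, ConvexOn ℝ H (fun y => a * w y) → ConvexOn ℝ H fun y => φ (y, w y) :=
    fun w h => by
      simp only [hφ]
      exact h.add (((L : V →ₗ[ℝ] ℝ).convexOn h.1).add_const c)
  simp only [intervalIntegral.integral_const, smul_eq_mul, mul_one, integral_const,
    MeasurableSet.univ, measureReal_restrict_apply, univ_inter] at j3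
  have L0 : 0 < ∫ y in H, top K y - bot K y ∂μ := j3 ▸ ENNReal.toReal_pos
    (Measure.measure_pos_of_nonempty_interior _ ⟨0, h0⟩).ne' hK.measure_lt_top.ne
  rw [j2, j3, mul_one]
  simp only [ch]
  rcases le_total 0 a with ha | ha
  · have e : ∀ y, φ (y, bot K y) + a * (top K y - bot K y) = φ (y, top K y) := fun y => by
      simp only [hφ]; ring
    have := core2 μ hm Ho Hn Hf ha r0 hr (cx _ (bc.smul ha)) cl (by simpa only [e] using cv _ (tc.smul ha))
      (fun y hy => le_max_of_le_left (hM _ (bm y hy))) nl L0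
    simpa only [e] using this
  · have e : ∀ y, φ (y, top K y) + -a * (top K y - bot K y) = φ (y, bot K y) := fun y => by
      simp only [hφ]; ring
    have := core2 μ hm Ho Hn Hf (neg_nonneg.2 ha) r0 hr (cx _ (by
        simpa [Pi.neg_def] using (tc.smul (neg_nonneg.2 ha)).neg)) cl (by
        simpa only [e] using cv _ (by simpa [Pi.neg_def] using (bc.smul (neg_nonneg.2 ha)).neg))
      (fun y hy => le_max_of_le_left (hM _ (tm y hy))) nl L0
    simp only [e] at this
    rw [add_comm (∫ y in H, φ (y, top K y) ^ 2 ∂μ)]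
    refine le_of_eq_of_le (congrArg _ (integral_congr_ae (.of_forall fun y => ?_))) this
    simp only [hφ]; ring

lemma fr_fin {E : Type*} [NormedAddCommGroup E] [InnerProductSpace ℝ E] [FiniteDimensional ℝ E]
    [MeasurableSpace E] [BorelSpace E] {m : ℕ} (hm : finrank ℝ E = m + 1) {Ω : Set E} (ho : IsOpen Ω)
    (hb : Bornology.IsBounded Ω) (hc : Convex ℝ Ω) (hne : Ω.Nonempty) : μH[m] (frontier Ω) ≠ ∞ := by
  obtain ⟨z, hz⟩ := hne
  have fr : frontier (closure Ω) = frontier Ω := by
    rw [frontier, frontier, closure_closure,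
      hc.interior_closure_eq_interior_of_nonempty_interior (by rw [ho.interior_eq]; exact ⟨z, hz⟩)]
  have h := frontier_fin hm (K := (fun x => z + x) ⁻¹' closure Ω)
    ((Homeomorph.addLeft z).isCompact_preimage.2 hb.isCompact_closure)
    (hc.closure.translate_preimage_right z)
    (preimage_interior_subset_interior_preimage (by fun_prop)
      (by simpa using interior_mono subset_closure (ho.interior_eq.symm.subset hz)))
  rwa [show frontier ((fun x => z + x) ⁻¹' closure Ω) = (fun x => z + x) ⁻¹' frontier (closure Ω) from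
    ((Homeomorph.addLeft z).preimage_frontier _).symm, fr,
    show μH[m] ((fun x => z + x) ⁻¹' frontier Ω) = μH[m] (frontier Ω) from
      ((IsometryEquiv.addLeft z).measurePreserving_hausdorffMeasure _).measure_preimage_emb
        (Homeomorph.addLeft z).measurableEmbedding _] at h

lemma sos {a b c : ℝ} (h : ∀ x y : ℝ, 0 ≤ a * x ^ 2 + b * x * y + c * y ^ 2) :
    ∃ u v w : ℝ, a = u ^ 2 ∧ b = 2 * u * v ∧ c = v ^ 2 + w ^ 2 := by
  have ha : 0 ≤ a := by simpa using h 1 0
  have hc : 0 ≤ c := by simpa using h 0 1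
  have d := discrim_le_zero (a := a) (b := b) (c := c) fun x => by have := h x 1; linarith
  rw [discrim] at d
  rcases ha.eq_or_lt with rfl | ha
  · exact ⟨0, 0, √c, by simp, by nlinarith, by simp [Real.sq_sqrt hc]⟩
  · have s := Real.sqrt_pos.2 ha
    refine ⟨√a, b / (2 * √a), √(c - b ^ 2 / (4 * a)), (Real.sq_sqrt ha.le).symm, by field_simp, ?_⟩
    rw [Real.sq_sqrt (by rw [sub_nonneg, div_le_iff₀ (by positivity)]; linarith), div_pow, mul_pow,
      Real.sq_sqrt ha.le]
    ring

lemma decomp {Ω : Set (EuclideanSpace ℝ (Fin 2))} {f : EuclideanSpace ℝ (Fin 2) → ℝ}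
    {a b c d e g : ℝ} (hf : ∀ x, f x = a * x 0 ^ 2 + b * x 0 * x 1 + c * x 1 ^ 2 + d * x 0 + e * x 1 + g)
    (ho : IsOpen Ω) (hb : Bornology.IsBounded Ω) (hne : Ω.Nonempty) (f0 : ∀ x ∈ Ω, 0 ≤ f x)
    (cv : ConvexOn ℝ Ω f) : ∃ φ φ1 φ2 : EuclideanSpace ℝ (Fin 2) →ᵃ[ℝ] ℝ,
      (∀ x ∈ closure Ω, 0 ≤ φ x) ∧ ∀ x, f x = φ x + (φ1 x ^ 2 + φ2 x ^ 2) := by
  have cf : Continuous f := by rw [funext hf]; fun_prop
  have Q : ∀ x y : ℝ, 0 ≤ a * x ^ 2 + b * x * y + c * y ^ 2 := fun x y => by
    obtain ⟨z, hz⟩ := hne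
    have t1 : ∀ v : EuclideanSpace ℝ (Fin 2), ∀ᶠ t : ℝ in 𝓝[>] 0, z + t • v ∈ Ω := fun v =>
      (Continuous.tendsto' (f := fun t : ℝ => z + t • v) (by fun_prop) 0 z (by simp)).mono_left
        nhdsWithin_le_nhds (ho.mem_nhds hz)
    obtain ⟨t, ⟨h1, h2⟩, h3⟩ := (((t1 !₂[x, y]).and (t1 (- !₂[x, y]))).and self_mem_nhdsWithin).exists
    have := cv.2 h1 h2 one_half_pos.le one_half_pos.le (add_halves 1)
    have t0 : 0 < t ^ 2 := pow_pos h3 2
    simp [hf] at this
    refine le_of_mul_le_mul_left ?_ t0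
    linarith
  obtain ⟨u, v, w, rfl, rfl, rfl⟩ := sos Q
  obtain ⟨z, hz, mz⟩ := hb.isCompact_closure.exists_isMinOn hne.closure cf.continuousOn
  obtain ⟨φ, h⟩ := eq_aff ![2 * u * (u * z 0 + v * z 1) + d,
    2 * v * (u * z 0 + v * z 1) + 2 * w ^ 2 * z 1 + e]
    (g - (u * z 0 + v * z 1) ^ 2 - (w * z 1) ^ 2)
  obtain ⟨φ1, h1⟩ := eq_aff ![u, v] (-(u * z 0 + v * z 1))
  obtain ⟨φ2, h2⟩ := eq_aff ![0, w] (-(w * z 1))
  have e : ∀ x, f x = φ x + (φ1 x ^ 2 + φ2 x ^ 2) := fun x => by
    rw [← h, ← h1, ← h2, hf]; simp; ring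
  have z1 : φ1 z = 0 := by rw [← h1]; simp
  have z2 : φ2 z = 0 := by rw [← h2]; simp
  have z0 : 0 ≤ f z := closure_minimal (t := {x | 0 ≤ f x}) f0 (isClosed_le continuous_const cf) hz
  refine ⟨φ, φ1, φ2, fun x hx => ?_, e⟩
  have := lim_le (a := φ z) (F := fun ε => φ x + ε * (φ1 x ^ 2 + φ2 x ^ 2)) (by fun_prop)
    fun ε hε => by
      have t0 : 0 < min ε 1 := lt_min hε one_pos
      have k := mz (cv.1.closure.lineMap_mem hz hx ⟨t0.le, min_le_right ε 1⟩)
      have k2 := mul_le_mul_of_nonneg_right (min_le_left ε 1)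
        (add_nonneg (sq_nonneg (φ1 x)) (sq_nonneg (φ2 x)))
      simp only [mem_ofPred_eq, e, AffineMap.apply_lineMap, AffineMap.lineMap_apply_ring', z1,
        z2] at k
      generalize min ε 1 = t at *
      refine le_of_mul_le_mul_left ?_ t0
      nlinarith
  rw [e, z1, z2] at z0
  linarith

theorem quad : IsLeast {k : ℝ | ∀ (Ω : Set (EuclideanSpace ℝ (Fin 2)))
      (f : EuclideanSpace ℝ (Fin 2) → ℝ), IsOpen Ω → Bornology.IsBounded Ω → Convex ℝ Ω →
      Ω.Nonempty → (∃ a b c d e g : ℝ, ∀ x,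
        f x = a * x 0 ^ 2 + b * x 0 * x 1 + c * x 1 ^ 2 + d * x 0 + e * x 1 + g) →
      (∀ x ∈ Ω, 0 ≤ f x) → ConvexOn ℝ Ω f →
      ⨍ x in Ω, f x ∂volume ≤ k * ⨍ x in frontier Ω, f x ∂(Measure.hausdorffMeasure 1)}
      (1 + 1 / √3) := by
  have r0 : 0 < 1 / √3 := by positivity
  have hr : 3 * (1 / √3) ^ 2 = 1 := by rw [div_pow, Real.sq_sqrt zero_le_three]; norm_num
  generalize 1 / √3 = r at *
  have hm : finrank ℝ (EuclideanSpace ℝ (Fin 2)) = 1 + 1 := by simp
  have b1 : bt 1 1 = 1 / 2 := by rw [bt_one]; norm_num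
  have b2 : bt 1 (1 + 1) = 1 / 3 := by
    have := bt_succ 1 le_rfl
    rw [b1, Nat.cast_one] at this
    linear_combination this / 3
  have b3 : bt 1 (1 + 1 + 1) = 1 / 4 := by
    have := bt_succ 1 (p := 1 + 1) (by norm_num)
    rw [b2, Nat.cast_one] at this
    linear_combination this / 4
  rw [show (μH[1] : Measure (EuclideanSpace ℝ (Fin 2))) = μH[(1 : ℕ)] by rw [Nat.cast_one]]
  constructor
  · rintro Ω f ho hb hc hne ⟨a, b, c, d, e, g, hf⟩ f0 cv
    obtain ⟨φ, φ1, φ2, n, e⟩ := decomp hf ho hb hne f0 cv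
    have sq := upper_gen hm (ψ := fun s => s ^ 2) (by fun_prop) isClosed_univ
      (fun s _ => sq_nonneg s) one_pos (by linarith : 0 < 1 + r) (fun e he K φ L a c h1 h2 h3 h4 _ =>
        have := haar_perp e he hm
        dir2 _ (finrank_perp e he hm) h1 h2 h3 L a c h4 r0 hr) ho hb hc hne
    have s1 := sq φ1 fun _ _ => trivial
    have s2 := sq φ2 fun _ _ => trivial
    have s0 := upper hm one_ne_zero ho hb hc hne φ (fun x hx => n x (subset_closure hx)) le_rfl
    have c0 := φ.continuous_of_finiteDimensional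
    have c1 : Continuous fun x => φ1 x ^ 2 := φ1.continuous_of_finiteDimensional.pow 2
    have c2 : Continuous fun x => φ2 x ^ 2 := φ2.continuous_of_finiteDimensional.pow 2
    have c3 : Continuous fun x => φ1 x ^ 2 + φ2 x ^ 2 := c1.add c2
    have fK : IsCompact (frontier Ω) :=
      hb.isCompact_closure.of_isClosed_subset isClosed_frontier frontier_subset_closure
    have ff := fr_fin hm ho hb hc hne
    have n0 : 0 ≤ ⨍ x in frontier Ω, φ x ∂μH[(1 : ℕ)] := by
      rw [setAverage_eq]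
      exact smul_nonneg (by positivity) (setIntegral_nonneg fK.measurableSet
        fun x hx => n x (frontier_subset_closure hx))
    simp only [Real.rpow_one, b1, b2, div_one, e, setAverage_eq, smul_eq_mul] at s0 s1 s2 n0 ⊢
    rw [integral_add (integrableOn_bdd _ c0 hb) (integrableOn_bdd _ c3 hb),
      integral_add (integrableOn_bdd _ c1 hb) (integrableOn_bdd _ c2 hb),
      integral_add (intOn fK ff c0) (intOn fK ff c3),
      integral_add (intOn fK ff c1) (intOn fK ff c2)]
    nlinarith [mul_nonneg n0 (show 0 ≤ r - 1 / 3 by nlinarith)]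
  · intro k hk
    by_contra h
    have h1 : max k 0 < 1 + r := max_lt (by simpa using h) (by linarith)
    obtain ⟨Ω, φ, a1, a2, a3, a4, -, a6⟩ := lower_gen hm one_ne_zero
      (ψ := fun s => (s - (1 - r) / 2) ^ 2) (by fun_prop) (fun s => sq_nonneg _) (A := 1 / 6)
      (B := (1 + r) / 12) (fun ν _ b h => by
        have i : ∀ j : ℕ, Integrable (fun t : ℝ => t ^ j) ν := fun j => by
          simpa using (b.pow (j.cast_nonneg (α := ℝ))).int
        have m1 := h 1 le_rfl
        have m2 := h (1 + 1) (by norm_num)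
        have m3 := h (1 + 1 + 1) (by norm_num)
        rw [b1] at m1; rw [b2, one_add_one_eq_two] at m2
        rw [b3, show (1 + 1 + 1 : ℝ) = (3 : ℕ) by norm_num] at m3
        rw [← Nat.cast_one (R := ℝ)] at m1
        simp only [Real.rpow_natCast, Real.rpow_two] at m1 m2 m3
        constructor
        · rw [integral_congr_ae (g := fun t => t ^ 2 - (1 - r) * t ^ 1 + ((1 - r) / 2) ^ 2)
            (.of_forall fun t => by ring), integral_add (by exact (i 2).sub ((i 1).const_mul _))
            (integrable_const _), integral_sub (i 2) ((i 1).const_mul _), integral_const_mul, m1, m2,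
            integral_const, smul_eq_mul]
          push_cast
          linear_combination ν.real univ / 12 * hr
        · rw [integral_congr_ae (g := fun t => t ^ 3 - (1 - r) * t ^ 2 + ((1 - r) / 2) ^ 2 * t ^ 1)
            (.of_forall fun t => by ring), integral_add (by exact (i 3).sub ((i 2).const_mul _))
            ((i 1).const_mul _), integral_sub (i 3) ((i 2).const_mul _), integral_const_mul,
            integral_const_mul, m1, m2, m3]
          push_cast
          linear_combination ν.real univ / 24 * hr) (le_max_right k 0) (by rw [b1]; linarith)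
    obtain ⟨a, b, hφ⟩ := aff_eq φ
    refine a6.not_ge ((hk Ω _ a1 a2 a3 a4 ⟨a 0 ^ 2, 2 * a 0 * a 1, a 1 ^ 2,
      2 * a 0 * (b - (1 - r) / 2), 2 * a 1 * (b - (1 - r) / 2), (b - (1 - r) / 2) ^ 2, fun x => by
        rw [hφ, Fin.sum_univ_two]; ring⟩ (fun x _ => sq_nonneg _)
      (((Even.convexOn_pow even_two).comp_affineMap (φ - AffineMap.const ℝ _ ((1 - r) / 2))).subset
        (subset_univ _) a3)).trans (mul_le_mul_of_nonneg_right (le_max_left _ _) ?_))
    rw [setAverage_eq]
    exact smul_nonneg (by positivity) (integral_nonneg fun x => sq_nonneg _)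

end Pool.Agent.MP_a32717_an.Aff
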