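import Pool.Agent.MP_a32717_an.Aff.Ber

/-! The third central moment of a concave function on an interval is nonpositive. -/

open MeasureTheory Set Filter Topology Module
open scoped ENNReal NNReal

noncomputable section
namespace Pool.Agent.MP_a32717_an.Aff

lemma secant {g : ℝ → ℝ} (hg : ConvexOn ℝ (Ioi 0) g) {a b s : ℝ} (ha : 0 < a) (hab : a < b)
    (hs : 0 < s) : (s - a) * (s - b) * (g a + (g b - g a) / (b - a) * (s - a)) ≤
      (s - a) * (s - b) * g s := by
  have d : 0 < b - a := sub_pos.2 hab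
  have hb := ha.trans hab
  rcases lt_trichotomy s a with h | rfl | h
  · refine mul_le_mul_of_nonneg_left ?_ (mul_nonneg_of_nonpos_of_nonpos (by linarith) (by linarith))
    have := hg.slope_mono_adjacent hs hb h hab
    rw [div_le_iff₀ (sub_pos.2 h)] at this
    linarith
  · simp
  rcases lt_trichotomy s b with k | rfl | k
  · refine mul_le_mul_of_nonpos_left ?_ (mul_nonpos_of_nonneg_of_nonpos (by linarith) (by linarith))
    have := hg.secant_mono_aux2 ha hb h k
    rw [div_le_iff₀ (sub_pos.2 h)] at this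
    linarith
  · simp
  · refine mul_le_mul_of_nonneg_left ?_ (mul_nonneg (by linarith) (by linarith))
    have := hg.secant_mono_aux2 ha hs hab k
    rw [le_div_iff₀ (sub_pos.2 h)] at this
    linarith

lemma leg {g : ℝ → ℝ} (hg : ConvexOn ℝ (Ioi 0) g) (ag : Antitone g) (g0 : ∀ s, 0 ≤ g s) {x R : ℝ}
    (hx : 0 < x) (hR : 2 * x ≤ R) : 0 ≤ ∫ s in (0 : ℝ)..R, g s * (3 * s ^ 2 - 6 * x * s + 2 * x ^ 2) := by
  have i : ∀ a b, IntervalIntegrable (fun s => g s * (3 * s ^ 2 - 6 * x * s + 2 * x ^ 2)) volume a b :=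
    fun a b => ag.intervalIntegrable.mul_continuousOn (by fun_prop)
  obtain ⟨r, r0, r1, r2⟩ : ∃ r : ℝ, 0 < r ∧ r < x ∧ 3 * r ^ 2 = x ^ 2 := by
    have h := Real.sq_sqrt (show (0 : ℝ) ≤ 3 by norm_num)
    have h0 : 1 < Real.sqrt 3 := Real.lt_sqrt_of_sq_lt (by norm_num)
    exact ⟨x / Real.sqrt 3, by positivity, div_lt_self hx h0, by rw [div_pow, h]; ring⟩
  rw [← intervalIntegral.integral_add_adjacent_intervals (i 0 (2 * x)) (i _ R)]
  refine add_nonneg ?_ (intervalIntegral.integral_nonneg hR fun s hs =>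
    mul_nonneg (g0 s) (by nlinarith [hs.1]))
  set k := (g (x + r) - g (x - r)) / (x + r - (x - r)) with hk
  have e := intervalIntegral.integral_eq_sub_of_hasDerivAt (a := 0) (b := 2 * x)
    (f := fun s => (g (x - r) + k * r) * (s ^ 3 - 3 * x * s ^ 2 + 2 * x ^ 2 * s) +
      k * (3 / 4 * (s - x) ^ 4 - x ^ 2 / 2 * (s - x) ^ 2))
    (f' := fun s => (g (x - r) + k * (s - (x - r))) * (3 * s ^ 2 - 6 * x * s + 2 * x ^ 2))
    (fun s _ => by
      refine HasDerivAt.congr_deriv ((((((hasDerivAt_id s).pow 3).sub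
        (((hasDerivAt_id s).pow 2).const_mul _)).add ((hasDerivAt_id s).const_mul _)).const_mul _).add
        ((((((hasDerivAt_id s).sub_const x).pow 4).const_mul _).sub
          ((((hasDerivAt_id s).sub_const x).pow 2).const_mul _)).const_mul _)) ?_
      simp only [id]; push_cast; ring) (Continuous.intervalIntegrable (by fun_prop) _ _)
  refine le_trans (le_of_eq (e.trans (by ring)).symm) (intervalIntegral.integral_mono_on_of_le_Ioo
    (by linarith) (Continuous.intervalIntegrable (by fun_prop) _ _) (i _ _) fun s hs => ?_)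
  have := secant hg (a := x - r) (b := x + r) (by linarith) (by linarith) hs.1
  rw [show 3 * s ^ 2 - 6 * x * s + 2 * x ^ 2 = 3 * ((s - (x - r)) * (s - (x + r))) by
    linear_combination r2]
  linarith

variable {V : Type*} [NormedAddCommGroup V] [NormedSpace ℝ V] [FiniteDimensional ℝ V]
  [MeasurableSpace V] [BorelSpace V] (μ : Measure V) [μ.IsAddHaarMeasure]

omit [FiniteDimensional ℝ V] [μ.IsAddHaarMeasure] [NormedSpace ℝ V] in
lemma cakeR {H : Set V} (Ho : IsOpen H) (Hf : μ H ≠ ∞) {u : V → ℝ} (cu : ContinuousOn u H) {R : ℝ}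
    (R0 : 0 ≤ R) (hu : ∀ y ∈ H, 0 ≤ u y ∧ u y ≤ R) (k : ℕ) : ∫ y in H, u y ^ (k + 1) ∂μ =
      (k + 1) * ∫ s in (0 : ℝ)..R, μ.real ({y | s < u y} ∩ H) * s ^ k := by
  have : IsFiniteMeasure (μ.restrict H) := isFiniteMeasure_restrict.2 Hf
  have b := bd_of μ Ho cu hu
  have h := cake μ Ho.measurableSet Hf b (q := (k + 1 : ℕ)) (by positivity)
  have f : ∀ s, μ ({y | s < u y} ∩ H) ≠ ∞ := fun s =>
    ne_top_of_le_ne_top Hf (measure_mono inter_subset_right)
  have ag : Antitone fun s => μ.real ({y | s < u y} ∩ H) := fun s t q =>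
    measureReal_mono (inter_subset_inter_left _ fun y hy => q.trans_lt hy) (f s)
  have i : IntervalIntegrable (fun s => μ.real ({y | s < u y} ∩ H) * s ^ k) volume 0 R :=
    ag.intervalIntegrable.mul_continuousOn (by fun_prop)
  have n : ∀ s ∈ Ioc 0 R, 0 ≤ μ.real ({y | s < u y} ∩ H) * s ^ k := fun s hs =>
    mul_nonneg measureReal_nonneg (pow_nonneg hs.1.le _)
  simp only [Real.rpow_natCast, Nat.cast_succ, add_sub_cancel_right] at h
  rw [← Ioc_union_Ioi_eq_Ioi R0, lintegral_union measurableSet_Ioi (Ioc_disjoint_Ioi le_rfl),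
    setLIntegral_congr_fun (g := fun _ => 0) measurableSet_Ioi fun s hs => by
      rw [eq_empty_of_forall_notMem (s := {y | s < u y} ∩ H) fun y hy =>
        (hu y hy.2).2.not_gt (lt_trans hs hy.1)]; simp,
    lintegral_zero, add_zero, setLIntegral_congr_fun (g := fun s => ENNReal.ofReal
      (μ.real ({y | s < u y} ∩ H) * s ^ k)) measurableSet_Ioc fun s hs => by
      beta_reduce
      rw [ENNReal.ofReal_mul measureReal_nonneg, Measure.real, ENNReal.ofReal_toReal (f s)],
    ← ofReal_integral_eq_lintegral_ofReal i.1 (ae_restrict_of_forall_mem measurableSet_Ioc n),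
    ← ENNReal.ofReal_mul (by positivity), ENNReal.ofReal_eq_ofReal_iff
      (integral_nonneg_of_ae (b.pow (by positivity)).nn)
      (mul_nonneg (by positivity) (setIntegral_nonneg measurableSet_Ioc n))] at h
  rw [intervalIntegral.integral_of_le R0, ← h]
  simp only [← Nat.cast_succ, Real.rpow_natCast]

theorem skew (hm : finrank ℝ V = 1) {H : Set V} (Ho : IsOpen H) (Hn : H.Nonempty) (Hf : μ H ≠ ∞)
    {T : V → ℝ} (cT : ConcaveOn ℝ H T) {M : ℝ} (hT : ∀ y ∈ H, |T y| ≤ M) {t : ℝ}
    (ht : ∫ y in H, (T y - t) ∂μ = 0) : ∫ y in H, (T y - t) ^ 3 ∂μ ≤ 0 := by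
  have : IsFiniteMeasure (μ.restrict H) := isFiniteMeasure_restrict.2 Hf
  have bd : BddAbove (T '' H) := ⟨M, by rintro _ ⟨y, hy, rfl⟩; exact (abs_le.1 (hT y hy)).2⟩
  have le : ∀ y ∈ H, T y ≤ sSup (T '' H) := fun y hy => le_csSup bd ⟨y, hy, rfl⟩
  have ap : ∀ s, 0 < s → ∃ y ∈ H, sSup (T '' H) - T y < s := fun s hs => by
    obtain ⟨_, ⟨y, hy, rfl⟩, h⟩ := exists_lt_of_lt_csSup (Hn.image T) (sub_lt_self _ hs)
    exact ⟨y, hy, by linarith⟩
  generalize sSup (T '' H) = m at *
  set X : V → ℝ := fun y => m - T y with hX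
  have cX : ConvexOn ℝ H X := (convexOn_const m cT.1).sub cT
  have co := cX.continuousOn Ho
  rcases le_or_gt (m - t) 0 with x0 | x0
  · exact setIntegral_nonpos Ho.measurableSet fun y hy =>
      Odd.pow_nonpos (by decide) (by linarith [le y hy])
  obtain ⟨z, hz⟩ := Hn
  have M0 : 0 ≤ m + M := by linarith [le z hz, (abs_le.1 (hT z hz)).1]
  have nX : ∀ y ∈ H, 0 ≤ X y ∧ X y ≤ m + M + 2 * (m - t) := fun y hy =>
    ⟨sub_nonneg.2 (le y hy), by simp only [hX]; linarith [(abs_le.1 (hT y hy)).1]⟩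
  have mS : ∀ s, MeasurableSet ({y | s < X y} ∩ H) := fun s => by
    rw [inter_comm]; exact (co.isOpen_inter_preimage Ho isOpen_Ioi).measurableSet
  have f : ∀ S, μ (H \ S) ≠ ∞ := fun S => ne_top_of_le_ne_top Hf (measure_mono sdiff_subset)
  have eg : ∀ s, μ.real ({y | s < X y} ∩ H) = μ.real H - μ.real (H \ ({y | s < X y} ∩ H)) :=
    fun s => by rw [measureReal_sdiff inter_subset_right (mS s) Hf]; ring
  have ps : ∀ s, 0 < s → 0 < μ.real (H \ ({y | s < X y} ∩ H)) := fun s hs => by
    obtain ⟨y, hy, h⟩ := ap s hs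
    have sb : H ∩ X ⁻¹' Iio s ⊆ H \ ({y | s < X y} ∩ H) :=
      fun w hw => ⟨hw.1, fun k => lt_asymm k.1.out hw.2⟩
    exact ENNReal.toReal_pos (((co.isOpen_inter_preimage Ho isOpen_Iio).measure_pos μ
      ⟨y, hy, h⟩).trans_le (measure_mono sb)).ne' (f _)
  have cg : ConvexOn ℝ (Ioi 0) fun s => μ.real ({y | s < X y} ∩ H) := by
    refine convexOn_iff_forall_pos.2 ⟨convex_Ioi 0, fun s hs r hr a b ha hb hab => ?_⟩
    obtain rfl : a = 1 - b := by linarith
    have := bmv μ hm one_ne_zero hb (by linarith) (ps s hs) (ps r hr) (Ho.measurableSet.diff (mS s))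
      (Ho.measurableSet.diff (mS r)) (Ho.measurableSet.diff (mS ((1 - b) * s + b * r)))
      (by rw [pow_one, Measure.real, ENNReal.ofReal_toReal (f _)])
      (by rw [pow_one, Measure.real, ENNReal.ofReal_toReal (f _)]) fun x hx y hy => by
        refine ⟨cX.1 hx.1 hy.1 ha.le hb.le hab, fun k => k.1.out.not_ge ?_⟩
        refine (cX.2 hx.1 hy.1 ha.le hb.le hab).trans (add_le_add ?_ ?_)
        · exact mul_le_mul_of_nonneg_left (not_lt.1 fun q => hx.2 ⟨q, hx.1⟩) ha.le
        · exact mul_le_mul_of_nonneg_left (not_lt.1 fun q => hy.2 ⟨q, hy.1⟩) hb.le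
    rw [pow_one, ENNReal.ofReal_le_iff_le_toReal (f _), ← Measure.real] at this
    simp only [smul_eq_mul, eg]
    linarith
  have ag : Antitone fun s => μ.real ({y | s < X y} ∩ H) := fun s t q =>
    measureReal_mono (inter_subset_inter_left _ fun y hy => q.trans_lt hy)
      (ne_top_of_le_ne_top Hf (measure_mono inter_subset_right))
  have k := leg cg ag (fun _ => measureReal_nonneg) x0 (R := m + M + 2 * (m - t)) (by linarith)
  have c := cakeR μ Ho Hf co (by linarith) nX
  have i : ∀ j : ℕ, IntervalIntegrable (fun s => μ.real ({y | s < X y} ∩ H) * s ^ j) volume 0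
      (m + M + 2 * (m - t)) := fun j => ag.intervalIntegrable.mul_continuousOn (by fun_prop)
  have b := bd_of μ Ho co nX
  have j : ∀ j : ℕ, Integrable (fun y => X y ^ j) (μ.restrict H) := fun j => by
    simpa using (b.pow (j.cast_nonneg (α := ℝ))).int
  rw [intervalIntegral.integral_congr (g := fun s => 3 * (μ.real ({y | s < X y} ∩ H) * s ^ 2) -
      6 * (m - t) * (μ.real ({y | s < X y} ∩ H) * s ^ 1) +
      2 * (m - t) ^ 2 * (μ.real ({y | s < X y} ∩ H) * s ^ 0)) fun s _ => by ring,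
    intervalIntegral.integral_add (((i 2).const_mul _).sub ((i 1).const_mul _)) ((i 0).const_mul _),
    intervalIntegral.integral_sub ((i 2).const_mul _) ((i 1).const_mul _)] at k
  simp only [intervalIntegral.integral_const_mul] at k
  have iT : Integrable (fun y => T y - t) (μ.restrict H) :=
    ((integrable_const (m - t)).sub b.int).congr (.of_forall fun y => by simp [hX])
  rw [integral_congr_ae (g := fun y => 3 * (m - t) * X y ^ (1 + 1) - X y ^ (2 + 1) -
      2 * (m - t) ^ 2 * X y ^ (0 + 1) + (m - t) ^ 2 * (T y - t)) (.of_forall fun y => by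
        simp only [hX]; ring),
    integral_add (by exact (((j _).const_mul _).sub (j _)).sub ((j _).const_mul _)) (iT.const_mul _),
    integral_sub (by exact ((j _).const_mul _).sub (j _)) ((j _).const_mul _),
    integral_sub ((j _).const_mul _) (j _), integral_const_mul, integral_const_mul,
    integral_const_mul, ht, c, c, c]
  push_cast
  linarith

end Pool.Agent.MP_a32717_an.Aff
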