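import Pool.Agent.MP_a32717_an.Aff.Dir
import Pool.Agent.MP_a32717_an.Sym.Upper

/-! Averaging over directions, with both halves of the boundary, and the upper bound. -/

open MeasureTheory Set Metric Module Filter Topology
open scoped ENNReal NNReal RealInnerProductSpace Pointwise

noncomputable section
namespace Pool.Agent.MP_a32717_an.Aff
open Pool.Agent.MP_a32717_an.Sym

variable {E : Type*} [NormedAddCommGroup E] [InnerProductSpace ℝ E] [FiniteDimensional ℝ E]
  [MeasurableSpace E] [BorelSpace E] {m : ℕ} {K : Set E}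

theorem cauchy2 (hm : finrank ℝ E = m + 1) (hK : IsCompact K) (hc : Convex ℝ K)
    (h0 : 0 ∈ interior K) (F : E → ℝ≥0∞) (hF : Measurable F) (I C : ℝ≥0∞)
    (h : ∀ (e : E) (he : e ≠ 0), 2 * I * (μH[m] : Measure (ℝ ∙ e)ᗮ) (prj e '' K) ≤
      C * (∫⁻ y in interior (prj e '' K), F (dec e he (y, top (dec e he ⁻¹' K) y)) ∂μH[m] +
        ∫⁻ y in interior (prj e '' (-K)), F (-dec e he (y, top (dec e he ⁻¹' (-K)) y)) ∂μH[m])) :
    I * μH[m] (frontier K) ≤ C * ∫⁻ x in frontier K, F x ∂μH[m] := by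
  obtain ⟨ν, hν, net⟩ := exists_net hm
  have step : ∀ θ : ℝ, 0 < θ → θ < 1 →
      I * μH[m] (frontier K) * ∫⁻ e in ball (0 : E) 1, wlo m θ ⟪ν 0, e⟫ ≤
      (C * ∫⁻ x in frontier K, F x ∂μH[m]) * ∫⁻ e in ball (0 : E) 1, whi m θ ⟪ν 0, e⟫ := by
    intro θ h1 h2
    set A := disjointed fun j => piece K (ν j) (θ * θ) with hA
    have a1 : ∀ j, A j ⊆ piece K (ν j) (θ * θ) := disjointed_subset _
    have a2 : ∀ j, MeasurableSet (A j) :=
      MeasurableSet.disjointed fun j => (piece_compact hK _ _).measurableSet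
    have a3 := disjoint_disjointed fun j => piece K (ν j) (θ * θ)
    have a4 : frontier K = ⋃ j, A j := by
      rw [hA, iUnion_disjointed]
      refine Subset.antisymm (fun x hx => ?_) (iUnion_subset fun j => piece_sub _ _)
      obtain ⟨a, n, b, c⟩ := exists_normal hK.isClosed hc h0 hx
      obtain ⟨j, hj⟩ := net (θ * θ) (by positivity) n b
      exact mem_iUnion.2 ⟨j, a, n, b, hj, c⟩
    have hν' : ∀ j, ‖-ν j‖ = 1 := fun j => by rw [norm_neg, hν]
    have a5 : ∀ j, -A j ⊆ piece (-K) (-ν j) (θ * θ) := fun j x hx => by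
      obtain ⟨a, n, b, c, d⟩ := a1 j hx
      refine ⟨a, -n, by rwa [norm_neg], by rwa [neg_sub_neg, norm_sub_rev], fun y hy => ?_⟩
      have := d _ hy
      rwa [neg_sub_neg, ← neg_sub, inner_neg_right, ← inner_neg_left] at this
    have a6 : frontier (-K) ⊆ ⋃ j, -A j := fun x hx => by
      have : -x ∈ frontier K := ((Homeomorph.neg E).preimage_frontier K).symm.subset hx
      rw [a4] at this
      simpa using this
    have a7 : ∀ j, ∫⁻ x in -A j, F (-x) ∂μH[m] = ∫⁻ x in A j, F x ∂μH[m] := fun j =>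
      ((LinearIsometryEquiv.neg ℝ (E := E)).toIsometryEquiv.measurePreserving_hausdorffMeasure
        (m : ℝ)).setLIntegral_comp_preimage_emb (Homeomorph.neg E).measurableEmbedding F (A j)
    have ci : ∀ v : E, Measurable fun e : E => ⟪v, e⟫ := fun j => by fun_prop
    have mq : ∀ (n : ℕ → E) (φ : ℝ → ℝ≥0∞) (a : ℕ → ℝ≥0∞), Measurable φ →
        ∀ j, Measurable fun e : E => φ ⟪n j, e⟫ * a j :=
      fun n φ a hφ j => (hφ.comp (ci _)).mul_const _
    have key : ∀ n : ℕ → E, (∀ j, ‖n j‖ = 1) → ∀ (φ : ℝ → ℝ≥0∞) (a : ℕ → ℝ≥0∞) (c : ℝ≥0∞),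
        Measurable φ → ∫⁻ e in ball (0 : E) 1, c * ∑' j, φ ⟪n j, e⟫ * a j =
          (c * ∑' j, a j) * ∫⁻ e in ball (0 : E) 1, φ ⟪ν 0, e⟫ := fun n hn φ a c hφ => by
      have q := mq n φ a hφ
      rw [lintegral_const_mul _ (Measurable.tsum q),
        lintegral_tsum fun j => (q j).aemeasurable, mul_assoc, ← ENNReal.tsum_mul_right]
      congr 2 with j
      have q' : Measurable fun e : E => φ ⟪n j, e⟫ := hφ.comp (ci _)
      rw [lintegral_mul_const _ q', mul_comm, avg_inv φ ((hn j).trans (hν 0).symm)]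
    rw [← ENNReal.mul_le_mul_iff_right two_ne_zero ENNReal.ofNat_ne_top, ← mul_assoc, ← mul_assoc,
      two_mul (_ * _ * _), a4, measure_iUnion a3 a2, lintegral_iUnion a2 a3,
      ← key _ hν _ _ _ (wlo_meas m θ)]
    nth_rewrite 1 [← key _ hν _ _ _ (whi_meas m θ)]
    rw [← key _ hν' _ _ _ (whi_meas m θ), ← lintegral_add_left
      ((Measurable.tsum (mq ν _ _ (whi_meas m θ))).const_mul _)]
    refine setLIntegral_mono' measurableSet_ball fun e he => ?_
    have he1 : ‖e‖ ≤ 1 := by simpa using ball_subset_closedBall he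
    rcases eq_or_ne e 0 with rfl | he0
    · simp [wlo, h1.not_ge]
    have u := dir_upper hm hK.neg hν' h1 h2 a5 (fun j => (a2 j).neg) hc.neg
      (preimage_interior_subset_interior_preimage continuous_neg (by simpa using h0)) a6 he0 he1
      (fun x => F (-x)) (hF.comp measurable_neg)
    simp only [a7] at u
    calc _ ≤ 2 * I * (ENNReal.ofReal ‖e‖ * _) :=
          mul_le_mul_right (dir_lower hm hK hν h1 h2 a1 a2 a3 he1) _
      _ ≤ ENNReal.ofReal ‖e‖ * (C * _) := by
          rw [mul_left_comm]; exact mul_le_mul_right (h e he0) _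
      _ ≤ _ := by
          rw [mul_left_comm, mul_add, mul_add]
          exact add_le_add (mul_le_mul_right
            (dir_upper hm hK hν h1 h2 a1 a2 hc h0 a4.subset he0 he1 F hF) _) (mul_le_mul_right u _)
  have k0 : ∫⁻ e in ball (0 : E) 1, ENNReal.ofReal ⟪ν 0, e⟫ ≠ 0 := by
    rw [← pos_iff_ne_zero, setLIntegral_pos_iff (by fun_prop)]
    have : IsOpen ({e : E | 0 < ⟪ν 0, e⟫} ∩ ball 0 1) :=
      (isOpen_lt continuous_const (by fun_prop)).inter isOpen_ball
    refine (this.measure_pos volume ⟨(1 / 2 : ℝ) • ν 0, ?_, ?_⟩).trans_le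
      (measure_mono (inter_subset_inter_left _ fun e he => by simpa using he))
    · simp [inner_smul_right, hν]
    · simp [norm_smul, hν]; norm_num
  have k1 : ∫⁻ e in ball (0 : E) 1, ENNReal.ofReal ⟪ν 0, e⟫ ≠ ∞ := by
    refine ne_top_of_le_ne_top (measure_ball_lt_top (μ := volume) (x := (0 : E)) (r := 1)).ne ?_
    rw [← setLIntegral_one]
    refine setLIntegral_mono' measurableSet_ball fun e he => ENNReal.ofReal_le_one.2 ?_
    have h2 : ‖e‖ < 1 := by simpa using he
    have := real_inner_le_norm (ν 0) e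
    rw [hν] at this
    linarith
  rw [← ENNReal.mul_le_mul_iff_left k0 k1]
  refine le_of_tendsto_of_tendsto' (ENNReal.Tendsto.const_mul (w_lim (hν 0) m).1 (Or.inl k0))
    (ENNReal.Tendsto.const_mul (w_lim (hν 0) m).2 (Or.inl k0)) fun k => step _ (by positivity) ?_
  rw [div_lt_one (by positivity)]; linarith [k.cast_nonneg (α := ℝ)]

/-- the lower Lebesgue form of the inequality for one direction -/
theorem dir' {V : Type*} [NormedAddCommGroup V] [NormedSpace ℝ V] [FiniteDimensional ℝ V]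
    [MeasurableSpace V] [BorelSpace V] (μ : Measure V) [μ.IsAddHaarMeasure] {K : Set (V × ℝ)}
    (hK : IsCompact K) {F : V × ℝ → ℝ} {α β : ℝ} (hβ : 0 ≤ β)
    (h : 2 * α * μ.real (Prod.fst '' K) * ∫ q in K, F q ∂μ.prod volume ≤
      β * (μ.prod volume).real K * (∫ y in interior (Prod.fst '' K), F (y, top K y) ∂μ +
        ∫ y in interior (Prod.fst '' K), F (y, bot K y) ∂μ)) :
    2 * ENNReal.ofReal (α * ∫ q in K, F q ∂μ.prod volume) * μ (Prod.fst '' K) ≤
      ENNReal.ofReal (β * (μ.prod volume).real K) *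
        (∫⁻ y in interior (Prod.fst '' K), ENNReal.ofReal (F (y, top K y)) ∂μ +
        ∫⁻ y in interior (Prod.fst '' (-K)), ENNReal.ofReal (F (-(y, top (-K) y))) ∂μ) := by
  have up : ∀ (S : Set V) (g : V → ℝ),
      ENNReal.ofReal (∫ y in S, g y ∂μ) ≤ ∫⁻ y in S, ENNReal.ofReal (g y) ∂μ := fun S g => by
    by_cases i : Integrable g (μ.restrict S)
    · rw [integral_eq_lintegral_pos_part_sub_lintegral_neg_part i]
      exact (ENNReal.ofReal_le_ofReal (sub_le_self _ ENNReal.toReal_nonneg)).trans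
        ENNReal.ofReal_toReal_le
    · simp [integral_undef i]
  have e : ∫⁻ y in interior (Prod.fst '' (-K)), ENNReal.ofReal (F (-(y, top (-K) y))) ∂μ =
      ∫⁻ y in interior (Prod.fst '' K), ENNReal.ofReal (F (y, bot K y)) ∂μ := by
    rw [← (Measure.measurePreserving_neg μ).setLIntegral_comp_preimage_emb
      (Homeomorph.neg V).measurableEmbedding]
    have : Neg.neg ⁻¹' interior (Prod.fst '' (-K)) = interior (Prod.fst '' K) := by
      refine ((Homeomorph.neg V).preimage_interior _).trans (congrArg _ ?_)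
      ext y
      exact ⟨fun ⟨q, a, b⟩ => ⟨-q, a, neg_eq_iff_eq_neg.2 b⟩,
        fun ⟨q, a, b⟩ => ⟨-q, by simpa using a, congrArg Neg.neg b⟩⟩
    rw [this]
    simp [bot]
  rw [e, ← ENNReal.ofReal_toReal (hK.image continuous_fst).measure_lt_top.ne, mul_comm,
    ← mul_assoc, ← ENNReal.ofReal_ofNat, ← ENNReal.ofReal_mul ENNReal.toReal_nonneg,
    ← ENNReal.ofReal_mul (by positivity)]
  refine le_trans (le_of_eq (congrArg _ ?_)) ((ENNReal.ofReal_le_ofReal h).trans ?_)
  · rw [Measure.real]; ring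
  · rw [ENNReal.ofReal_mul (mul_nonneg hβ measureReal_nonneg)]
    exact mul_le_mul_right (ENNReal.ofReal_add_le.trans (add_le_add (up _ _) (up _ _))) _

/-- the inequality for `ψ` of an affine function holds in every direction -/
def Dirs (E : Type*) [NormedAddCommGroup E] [InnerProductSpace ℝ E] [MeasurableSpace E]
    [BorelSpace E] (m : ℕ) (ψ : ℝ → ℝ) (P : Set ℝ) (α β : ℝ) : Prop :=
  ∀ e : E, e ≠ 0 → ∀ (K : Set ((ℝ ∙ e)ᗮ × ℝ)) (φ : (ℝ ∙ e)ᗮ × ℝ → ℝ) (L : (ℝ ∙ e)ᗮ →L[ℝ] ℝ)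
    (a c : ℝ), IsCompact K → Convex ℝ K → 0 ∈ interior K →
    (∀ y t, φ (y, t) = a * t + (L y + c)) → (∀ q ∈ K, φ q ∈ P) →
    2 * α * μH[m].real (Prod.fst '' K) * ∫ q in K, ψ (φ q) ∂μH[m].prod volume ≤
      β * (μH[m].prod volume).real K * (∫ y in interior (Prod.fst '' K), ψ (φ (y, top K y)) ∂μH[m] +
        ∫ y in interior (Prod.fst '' K), ψ (φ (y, bot K y)) ∂μH[m])

variable {ψ : ℝ → ℝ} {P : Set ℝ} {α β : ℝ}

theorem upper_zero (hm : finrank ℝ E = m + 1) (cψ : Continuous ψ) (ψ0 : ∀ s ∈ P, 0 ≤ ψ s)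
    (b1 : 0 < α) (b2 : 0 < β) (hd : Dirs E m ψ P α β) (hK : IsCompact K) (hc : Convex ℝ K)
    (h0 : 0 ∈ interior K) (L : E →L[ℝ] ℝ) (c : ℝ) (φ0 : ∀ x ∈ K, L x + c ∈ P) :
    ⨍ x in K, ψ (L x + c) ≤ β / α * ⨍ x in frontier K, ψ (L x + c) ∂μH[m] := by
  have cF : Continuous fun x => ψ (L x + c) := by fun_prop
  have h := cauchy2 hm hK hc h0 (fun x => ENNReal.ofReal (ψ (L x + c))) (by fun_prop)
    (ENNReal.ofReal (α * ∫ x in K, ψ (L x + c))) (ENNReal.ofReal (β * volume.real K))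
    fun e he => by
      have := haar_perp e he hm
      obtain ⟨a, -, -, c1, c2⟩ := haar_transport (dec e he)
        ((μH[m] : Measure (ℝ ∙ e)ᗮ).prod volume) (volume : Measure E)
      have h := dir' (μH[m] : Measure (ℝ ∙ e)ᗮ) (pre_compact he hK)
        (F := fun q => ψ (L (dec e he q) + c)) b2.le (hd e he _ (fun q => L (dec e he q) + c)
        (L.comp (ℝ ∙ e)ᗮ.subtypeL) (L e) c (pre_compact he hK) (pre_convex he hc) (pre_zero he h0)
        (fun y t => by simp [dec_apply]; ring) fun q hq => φ0 _ hq)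
      rw [show -(dec e he ⁻¹' K) = dec e he ⁻¹' (-K) by ext; simp, proj_eq, proj_eq] at h
      simp only [map_neg] at h ⊢
      rw [c1, Measure.real, c2, ENNReal.toReal_mul, ENNReal.coe_toReal, mul_left_comm _ (a : ℝ),
        mul_left_comm _ (a : ℝ), ENNReal.ofReal_mul a.coe_nonneg, ENNReal.ofReal_mul a.coe_nonneg]
      refine le_trans (le_of_eq ?_) ((mul_le_mul_right h (ENNReal.ofReal a)).trans_eq ?_)
      · ring
      · rw [Measure.real]; ring
  have fK : IsCompact (frontier K) :=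
    hK.of_isClosed_subset isClosed_frontier hK.isClosed.frontier_subset
  have f1 := frontier_fin hm hK hc h0
  have f2 := ENNReal.toReal_pos (frontier_pos hm hK h0) f1
  have v2 : 0 < volume.real K := ENNReal.toReal_pos
    (Measure.measure_pos_of_nonempty_interior volume ⟨0, h0⟩).ne' hK.measure_lt_top.ne
  have nn : ∀ x ∈ frontier K, 0 ≤ ψ (L x + c) := fun x hx =>
    ψ0 _ (φ0 x (hK.isClosed.frontier_subset hx))
  rw [← ofReal_integral_eq_lintegral_ofReal (intOn fK f1 cF)
    (ae_restrict_of_forall_mem fK.measurableSet nn), ← ENNReal.ofReal_toReal f1, mul_comm,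
    ← ENNReal.ofReal_mul f2.le, ← ENNReal.ofReal_mul (mul_pos b2 v2).le,
    ENNReal.ofReal_le_ofReal_iff (mul_nonneg (mul_pos b2 v2).le
      (setIntegral_nonneg fK.measurableSet nn))] at h
  rw [setAverage_eq, setAverage_eq, smul_eq_mul, smul_eq_mul]
  simp only [Measure.real] at h v2 ⊢
  refine le_of_mul_le_mul_left ?_ (mul_pos b1 (mul_pos f2 v2))
  refine le_trans (le_of_eq ?_) (h.trans_eq ?_)
  · field_simp
  · field_simp

theorem upper_gen (hm : finrank ℝ E = m + 1) (cψ : Continuous ψ) (hP : IsClosed P)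
    (ψ0 : ∀ s ∈ P, 0 ≤ ψ s) (b1 : 0 < α) (b2 : 0 < β) (hd : Dirs E m ψ P α β) {Ω : Set E}
    (ho : IsOpen Ω) (hb : Bornology.IsBounded Ω) (hc : Convex ℝ Ω) (hne : Ω.Nonempty)
    (φ : E →ᵃ[ℝ] ℝ) (φ0 : ∀ x ∈ Ω, φ x ∈ P) :
    ⨍ x in Ω, ψ (φ x) ≤ β / α * ⨍ x in frontier Ω, ψ (φ x) ∂μH[m] := by
  obtain ⟨z, hz⟩ := hne
  have cφ := φ.continuous_of_finiteDimensional
  have eφ : ∀ x, LinearMap.toContinuousLinearMap φ.linear x + φ z = φ (z + x) := fun x => by
    rw [add_comm z, ← vadd_eq_add, ← vadd_eq_add, φ.map_vadd]; rfl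
  have fr : frontier (closure Ω) = frontier Ω := by
    rw [frontier, frontier, closure_closure,
      hc.interior_closure_eq_interior_of_nonempty_interior (by rw [ho.interior_eq]; exact ⟨z, hz⟩)]
  have h := upper_zero hm cψ ψ0 b1 b2 hd (K := (fun x => z + x) ⁻¹' closure Ω)
    ((Homeomorph.addLeft z).isCompact_preimage.2 hb.isCompact_closure)
    (hc.closure.translate_preimage_right z)
    (preimage_interior_subset_interior_preimage (by fun_prop)
      (by simpa using interior_mono subset_closure (ho.interior_eq.symm.subset hz)))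
    (LinearMap.toContinuousLinearMap φ.linear) (φ z) (fun x hx => by
      rw [eφ]
      exact closure_minimal (t := φ ⁻¹' P) φ0 (hP.preimage cφ) hx)
  simp only [eφ] at h
  rwa [show frontier ((fun x => z + x) ⁻¹' closure Ω) = (fun x => z + x) ⁻¹' frontier (closure Ω) from
    ((Homeomorph.addLeft z).preimage_frontier _).symm, fr,
    avg_shift (measurePreserving_add_left volume z) _ (fun x => ψ (φ x)),
    avg_shift (p := z) ((IsometryEquiv.addLeft z).measurePreserving_hausdorffMeasure _) _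
      (fun x => ψ (φ x)),
    setAverage_congr (closure_ae_eq_of_null_frontier (hc.addHaar_frontier volume))] at h

theorem upper (hm : finrank ℝ E = m + 1) (m0 : m ≠ 0) {Ω : Set E} (ho : IsOpen Ω)
    (hb : Bornology.IsBounded Ω) (hc : Convex ℝ Ω) (hne : Ω.Nonempty) (φ : E →ᵃ[ℝ] ℝ)
    (φ0 : ∀ x ∈ Ω, 0 ≤ φ x) {p : ℝ} (hp : 1 ≤ p) : ⨍ x in Ω, φ x ^ p ≤
      bt m (p + 1) / (bt m 1 * bt m p) * ⨍ x in frontier Ω, φ x ^ p ∂μH[m] :=
  upper_gen hm (ψ := fun s => s ^ p) (Real.continuous_rpow_const (by linarith)) isClosed_Ici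
    (fun s hs => Real.rpow_nonneg hs p) (mul_pos (bt_pos m le_rfl) (bt_pos m hp))
    (bt_pos m (by linarith)) (fun e he K φ L a c h1 h2 h3 h4 h5 =>
      have := haar_perp e he hm
      dir _ (finrank_perp e he hm) m0 h1 h2 h3 L a c h4 h5 hp) ho hb hc hne φ φ0

end Pool.Agent.MP_a32717_an.Aff
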